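import Mathlib

/-!
# Piece QA: hypergraphs without a complete n-partite subgraph K(2,...,2) (Erdos)
-/

set_option autoImplicit false

namespace Pool.Agent.LogAll

open Classical in
private theorem step_count (n : ℕ) (V : Fin (n + 1) → Finset ℕ) (E : Set (Fin (n + 1) → ℕ)) :
    ((((Fintype.piFinset V).filter (fun p => p ∈ E)).card : ℕ) : ℝ) =
      ∑ p ∈ Fintype.piFinset (Fin.tail V), ∑ a ∈ V 0,
        (if (Fin.cons a p : Fin (n + 1) → ℕ) ∈ E then (1 : ℝ) else 0) := by
  have h1 : ((Fintype.piFinset V).filter (fun p => p ∈ E)).card =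
      ((Fintype.piFinset (Fin.tail V) ×ˢ V 0).filter
        (fun q => (Fin.cons q.2 q.1 : Fin (n + 1) → ℕ) ∈ E)).card := by
    refine Finset.card_nbij' (fun p => (Fin.tail p, p 0)) (fun q => Fin.cons q.2 q.1) ?_ ?_ ?_ ?_
    · intro p hp
      have hp := Finset.mem_filter.1 (Finset.mem_coe.1 hp)
      have hp1 := Fintype.mem_piFinset.1 hp.1
      refine Finset.mem_coe.2 (Finset.mem_filter.2 ⟨Finset.mem_product.2 ⟨?_, hp1 0⟩, ?_⟩)
      · exact Fintype.mem_piFinset.2 fun i => hp1 i.succ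
      · change Fin.cons (p 0) (Fin.tail p) ∈ E
        rw [Fin.cons_self_tail]
        exact hp.2
    · intro q hq
      have hq := Finset.mem_filter.1 (Finset.mem_coe.1 hq)
      have hq1 := Finset.mem_product.1 hq.1
      refine Finset.mem_coe.2 (Finset.mem_filter.2 ⟨Fintype.mem_piFinset.2 ?_, hq.2⟩)
      intro i
      refine Fin.cases ?_ (fun j => ?_) i
      · exact hq1.2
      · exact Fintype.mem_piFinset.1 hq1.1 j
    · intro p _
      exact Fin.cons_self_tail p
    · intro q _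
      rfl
  rw [h1, Finset.card_filter, Finset.sum_product]
  push_cast
  rfl

open Classical in
private theorem pair_count (n : ℕ) (W : Finset (Fin n → ℕ)) (E : Set (Fin (n + 1) → ℕ)) (a b : ℕ) :
    ∑ p ∈ W, (if (Fin.cons a p : Fin (n + 1) → ℕ) ∈ E then (1 : ℝ) else 0) *
      (if (Fin.cons b p : Fin (n + 1) → ℕ) ∈ E then (1 : ℝ) else 0) =
      (((W.filter (fun p => p ∈ {p : Fin n → ℕ | (Fin.cons a p : Fin (n + 1) → ℕ) ∈ E ∧
        (Fin.cons b p : Fin (n + 1) → ℕ) ∈ E})).card : ℕ) : ℝ) := by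
  rw [Finset.card_filter]
  push_cast
  refine Finset.sum_congr rfl fun p _ => ?_
  by_cases h1 : (Fin.cons a p : Fin (n + 1) → ℕ) ∈ E <;>
    by_cases h2 : (Fin.cons b p : Fin (n + 1) → ℕ) ∈ E <;> simp [h1, h2]

open Classical in
/-- Induction on n. n = 0: E is empty. Step: for u in the last (or first) class V let E_u be the set of
the n-tuples which together with u give an element of E; by Cauchy-Schwarz over the n-tuples
|E| ^ 2 ≤ ∏ |V i| * ∑_(u, v) |E_u ∩ E_v|; for u ≠ v the set E_u ∩ E_v has no cube, for u = v use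
the trivial bound. So with κ_n := 2 * N ^ (-(1/2) ^ n): (|E| / ∏) ^ 2 ≤ 1 / N + κ_n ≤ 3 N ^ (-(1/2)^n),
and κ_(n+1) ^ 2 = 4 N ^ (-(1/2)^n). -/
theorem boxE (n : ℕ) (V : Fin n → Finset ℕ) (N : ℕ) (hN : 1 ≤ N) (hV : ∀ i, N ≤ (V i).card)
    (E : Set (Fin n → ℕ))
    (hE : ∀ u v : Fin n → ℕ, (∀ i, u i ∈ V i ∧ v i ∈ V i ∧ u i ≠ v i) →
      ∃ S : Finset (Fin n), (fun i => if i ∈ S then v i else u i) ∉ E) :
    ((((Fintype.piFinset V).filter (fun p => p ∈ E)).card : ℕ) : ℝ) ≤
      2 * (N : ℝ) ^ (-((1 / 2 : ℝ) ^ n)) * ∏ i, ((V i).card : ℝ) := by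
  induction n with
  | zero =>
    obtain ⟨S, hS⟩ := hE (fun i => i.elim0) (fun i => i.elim0) (fun i => i.elim0)
    have h0 : (Fintype.piFinset V).filter (fun p => p ∈ E) = ∅ := by
      refine Finset.filter_eq_empty_iff.2 fun p _ hp => hS ?_
      rw [Subsingleton.elim (fun i => if i ∈ S then (fun i : Fin 0 => (i.elim0 : ℕ)) i
        else (fun i : Fin 0 => (i.elim0 : ℕ)) i) p]
      exact hp
    rw [h0, Finset.card_empty, Nat.cast_zero]
    positivity
  | succ n ih =>
    have hN0 : (0 : ℝ) < N := by exact_mod_cast hN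
    have hN1 : (1 : ℝ) ≤ N := by exact_mod_cast hN
    rw [step_count, Fin.prod_univ_succ]
    set P := Fintype.piFinset (Fin.tail V) with hP
    set f : ℕ → (Fin n → ℕ) → ℝ := fun a p =>
      if (Fin.cons a p : Fin (n + 1) → ℕ) ∈ E then (1 : ℝ) else 0 with hf
    have hPc : (P.card : ℝ) = ∏ i : Fin n, ((V i.succ).card : ℝ) := by
      rw [hP, Fintype.card_piFinset]
      push_cast
      rfl
    rw [← hPc]
    change ∑ p ∈ P, ∑ a ∈ V 0, f a p ≤ _
    set κ : ℝ := 2 * (N : ℝ) ^ (-((1 / 2 : ℝ) ^ n)) with hκ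
    have hκ0 : 0 ≤ κ := by positivity
    have hcs : (∑ p ∈ P, ∑ a ∈ V 0, f a p) ^ 2 ≤ P.card * ∑ p ∈ P, (∑ a ∈ V 0, f a p) ^ 2 :=
      sq_sum_le_card_mul_sum_sq
    have hsq : ∑ p ∈ P, (∑ a ∈ V 0, f a p) ^ 2 =
        ∑ a ∈ V 0, ∑ b ∈ V 0, ∑ p ∈ P, f a p * f b p := by
      calc ∑ p ∈ P, (∑ a ∈ V 0, f a p) ^ 2 = ∑ p ∈ P, ∑ a ∈ V 0, ∑ b ∈ V 0, f a p * f b p := by
            refine Finset.sum_congr rfl fun p _ => ?_
            rw [sq, Finset.sum_mul_sum]
        _ = ∑ a ∈ V 0, ∑ p ∈ P, ∑ b ∈ V 0, f a p * f b p := Finset.sum_comm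
        _ = ∑ a ∈ V 0, ∑ b ∈ V 0, ∑ p ∈ P, f a p * f b p := by
            refine Finset.sum_congr rfl fun a _ => Finset.sum_comm
    have hpair : ∀ a ∈ V 0, ∀ b ∈ V 0, ∑ p ∈ P, f a p * f b p ≤
        (if a = b then (P.card : ℝ) else 0) + κ * P.card := by
      intro a ha b hb
      have e := pair_count n P E a b
      change ∑ p ∈ P, f a p * f b p = _ at e
      rw [e]
      by_cases hab : a = b
      · rw [if_pos hab]
        have h1 : ((P.filter (fun p => p ∈ {p : Fin n → ℕ |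
            (Fin.cons a p : Fin (n + 1) → ℕ) ∈ E ∧ (Fin.cons b p : Fin (n + 1) → ℕ) ∈ E})).card : ℝ) ≤
            P.card := by exact_mod_cast Finset.card_filter_le _ _
        have h2 : 0 ≤ κ * (P.card : ℝ) := by positivity
        linarith
      · rw [if_neg hab, zero_add]
        have h1 := ih (Fin.tail V) (fun i => hV i.succ)
          {p : Fin n → ℕ | (Fin.cons a p : Fin (n + 1) → ℕ) ∈ E ∧
            (Fin.cons b p : Fin (n + 1) → ℕ) ∈ E} ?_
        · rw [hPc]
          convert h1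
          rfl
        · intro u v huv
          obtain ⟨S, hS⟩ := hE (Fin.cons a u) (Fin.cons b v) (fun i => by
            refine Fin.cases ?_ (fun j => ?_) i
            · exact ⟨ha, hb, hab⟩
            · exact huv j)
          refine ⟨Finset.univ.filter (fun j : Fin n => j.succ ∈ S), fun hmem => hS ?_⟩
          have key : (fun i => if i ∈ S then (Fin.cons b v : Fin (n + 1) → ℕ) i
              else (Fin.cons a u : Fin (n + 1) → ℕ) i) =
              Fin.cons (if (0 : Fin (n + 1)) ∈ S then b else a)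
                (fun j : Fin n => if j ∈ Finset.univ.filter (fun j : Fin n => j.succ ∈ S) then v j
                  else u j) := by
            funext i
            refine Fin.cases ?_ (fun j => ?_) i
            · simp only [Fin.cons_zero]
            · simp only [Fin.cons_succ, Finset.mem_filter, Finset.mem_univ, true_and]
          rw [key]
          by_cases h0 : (0 : Fin (n + 1)) ∈ S
          · rw [if_pos h0]
            exact hmem.2
          · rw [if_neg h0]
            exact hmem.1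
    have hsum : ∑ a ∈ V 0, ∑ b ∈ V 0, ∑ p ∈ P, f a p * f b p ≤
        (V 0).card * P.card + (V 0).card ^ 2 * κ * P.card := by
      calc ∑ a ∈ V 0, ∑ b ∈ V 0, ∑ p ∈ P, f a p * f b p ≤
          ∑ a ∈ V 0, ∑ b ∈ V 0, ((if a = b then (P.card : ℝ) else 0) + κ * P.card) :=
            Finset.sum_le_sum fun a ha => Finset.sum_le_sum fun b hb => hpair a ha b hb
        _ = ∑ a ∈ V 0, ((P.card : ℝ) + (V 0).card * (κ * P.card)) := by
            refine Finset.sum_congr rfl fun a ha => ?_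
            rw [Finset.sum_add_distrib, Finset.sum_ite_eq, if_pos ha, Finset.sum_const, nsmul_eq_mul]
        _ = (V 0).card * P.card + (V 0).card ^ 2 * κ * P.card := by
            rw [Finset.sum_const, nsmul_eq_mul]
            ring
    have hV0 : (N : ℝ) ≤ (V 0).card := by exact_mod_cast hV 0
    have hpow : (1 : ℝ) ≤ N * (N : ℝ) ^ (-((1 / 2 : ℝ) ^ n)) := by
      have e1 : (N : ℝ) * (N : ℝ) ^ (-((1 / 2 : ℝ) ^ n)) = (N : ℝ) ^ (1 + -((1 / 2 : ℝ) ^ n)) := by
        rw [Real.rpow_add hN0, Real.rpow_one]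
      rw [e1]
      apply Real.one_le_rpow hN1
      have : (1 / 2 : ℝ) ^ n ≤ 1 := pow_le_one₀ (by norm_num) (by norm_num)
      linarith
    have hk2 : (2 * (N : ℝ) ^ (-((1 / 2 : ℝ) ^ (n + 1)))) ^ 2 = 2 * κ := by
      rw [mul_pow, ← Real.rpow_natCast ((N : ℝ) ^ (-((1 / 2 : ℝ) ^ (n + 1)))) 2, ← Real.rpow_mul hN0.le,
        hκ]
      have e2 : -((1 / 2 : ℝ) ^ (n + 1)) * ((2 : ℕ) : ℝ) = -((1 / 2 : ℝ) ^ n) := by
        push_cast
        ring
      rw [e2]
      ring
    apply le_of_pow_le_pow_left₀ two_ne_zero (by positivity)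
    calc (∑ p ∈ P, ∑ a ∈ V 0, f a p) ^ 2 ≤ P.card * ∑ p ∈ P, (∑ a ∈ V 0, f a p) ^ 2 := hcs
      _ = P.card * ∑ a ∈ V 0, ∑ b ∈ V 0, ∑ p ∈ P, f a p * f b p := by rw [hsq]
      _ ≤ P.card * ((V 0).card * P.card + (V 0).card ^ 2 * κ * P.card) := by gcongr
      _ = (P.card : ℝ) ^ 2 * ((V 0).card + (V 0).card ^ 2 * κ) := by ring
      _ ≤ (P.card : ℝ) ^ 2 * ((V 0).card ^ 2 * κ + (V 0).card ^ 2 * κ) := by
          gcongr
          have h3 : (1 : ℝ) ≤ (V 0).card * κ := by
            have h4 : (1 : ℝ) ≤ N * κ := by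
              have : N * κ = 2 * (N * (N : ℝ) ^ (-((1 / 2 : ℝ) ^ n))) := by rw [hκ]; ring
              linarith
            exact h4.trans (mul_le_mul_of_nonneg_right hV0 hκ0)
          have h5 : (0 : ℝ) ≤ (V 0).card := by positivity
          nlinarith
      _ = (2 * (N : ℝ) ^ (-((1 / 2 : ℝ) ^ (n + 1))) * ((V 0).card * P.card)) ^ 2 := by
          rw [mul_pow (2 * (N : ℝ) ^ (-((1 / 2 : ℝ) ^ (n + 1)))), hk2]
          ring

end Pool.Agent.LogAll
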