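import Pool.Agent.Lib_MP_1eadae_ls.SJ

/-!
# Piece QJ: tuples, with a rate
-/

set_option autoImplicit false

namespace Pool.Agent.LogAll

open Polynomial Pool.Agent.LogRel

theorem qj_log_log {x : ℕ} (hx : 16 ≤ x) :
    0 < Real.log x ∧ 1 ≤ Real.log (Real.log (x : ℝ)) := by
  have hx0 : (16 : ℝ) ≤ (x : ℝ) := by exact_mod_cast hx
  have h2 : (0.6931471803 : ℝ) < Real.log 2 := Real.log_two_gt_d9
  have h16 : Real.log 16 = 4 * Real.log 2 := by
    have : (16 : ℝ) = 2 ^ 4 := by norm_num
    rw [this, Real.log_pow]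
    norm_num
  have hlog : Real.log 16 ≤ Real.log x := Real.log_le_log (by norm_num) hx0
  have he : Real.exp 1 < 2.7182818286 := Real.exp_one_lt_d9
  have h3 : Real.exp 1 ≤ Real.log x := by linarith
  have h4 : 0 < Real.log x := lt_of_lt_of_le (Real.exp_pos 1) h3
  exact ⟨h4, (Real.le_log_iff_exp_le h4).2 h3⟩

/-- the rate is monotone in the exponent -/
theorem qj_rate {x C C' : ℕ} (hx : 16 ≤ x) (h : C ≤ C') :
    (Real.log (Real.log x)) ^ C / Real.log x ≤ (Real.log (Real.log x)) ^ C' / Real.log x := by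
  obtain ⟨h1, h2⟩ := qj_log_log hx
  exact div_le_div_of_nonneg_right (pow_le_pow_right₀ h2 h) h1.le

theorem qj_rate_nonneg {x : ℕ} (C : ℕ) (hx : 16 ≤ x) :
    0 ≤ (Real.log (Real.log x)) ^ C / Real.log x := by
  obtain ⟨h1, h2⟩ := qj_log_log hx
  exact div_nonneg (pow_nonneg (le_trans zero_le_one h2) _) h1.le

open Classical in
/-- As `jointC` in Lib_MP_1eadae_ls/SJ.lean. With C = C1 + C2 (log log x ≥ 1 for x ≥ 16, log 16 > e). -/
theorem jointR (Λ : Set (ℕ → ℂ))
    (hU : ∀ d D : ℕ, ∃ C : ℕ, ∀ l ∈ Λ, ∀ (w : Fin d → ℂ) (x : ℕ), 16 ≤ x →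
      ((((Finset.Icc 1 x).filter (fun a =>
        BadK (Submodule.span Qb (Set.range w)) D (l a))).card : ℕ) : ℝ) ≤
      C * ((Real.log (Real.log x)) ^ C / Real.log x) * x)
    (d D r : ℕ) : ∃ C : ℕ, ∀ l : Fin r → ℕ → ℂ, (∀ i, l i ∈ Λ) →
      ∀ w : Fin d → ℂ, LinearIndependent Qb w → ∀ x : Fin r → ℕ, (∀ i, 16 ≤ x i) →
      ((((Fintype.piFinset fun i => Finset.Icc 1 (x i)).filter (fun a : Fin r → ℕ =>
        ¬ LinearIndependent Qb (fun be : Fin d × (Fin r → Fin (D + 1)) =>
          w be.1 * ∏ i, l i (a i) ^ (be.2 i : ℕ)))).card : ℕ) : ℝ) ≤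
        C * (∑ i, (Real.log (Real.log (x i))) ^ C / Real.log (x i)) * ∏ i, (x i : ℝ) := by
  induction r generalizing d with
  | zero =>
    refine ⟨0, fun l _ w hw x _ => ?_⟩
    have hgood : ∀ a : Fin 0 → ℕ, LinearIndependent Qb (fun be : Fin d × (Fin 0 → Fin (D + 1)) =>
        w be.1 * ∏ i, l i (a i) ^ (be.2 i : ℕ)) := by
      intro a
      have h1 : (fun be : Fin d × (Fin 0 → Fin (D + 1)) =>
          w be.1 * ∏ i, l i (a i) ^ (be.2 i : ℕ)) = w ∘ Prod.fst := by
        funext be
        simp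
      rw [h1]
      refine hw.comp Prod.fst ?_
      rintro ⟨a, e⟩ ⟨b, f⟩ hab
      exact Prod.ext hab (Subsingleton.elim _ _)
    rw [sj_card, Finset.sum_eq_zero]
    · simp
    · intro a _
      exact if_neg fun h => h (hgood a)
  | succ r ih =>
    obtain ⟨C1, hC1⟩ := hU d D
    obtain ⟨C2, hC2⟩ := ih (d * (D + 1))
    refine ⟨C1 + C2, fun l hl w hw x hx => ?_⟩
    set PL : ℝ := ∏ i : Fin r, (x i.succ : ℝ) with hPL
    set SL : ℝ := ∑ i : Fin r, (Real.log (Real.log (x i.succ))) ^ C2 / Real.log (x i.succ)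
      with hSL
    have hPL0 : 0 ≤ PL := Finset.prod_nonneg fun i _ => Nat.cast_nonneg _
    have hSL0 : 0 ≤ SL := Finset.sum_nonneg fun i _ => qj_rate_nonneg _ (hx i.succ)
    rw [sj_card, sj_sum_piFinset_succ, Fin.prod_univ_succ, Fin.sum_univ_succ, ← hPL]
    have hI : ∀ p : Prop, ∀ _ : Decidable p, (0 : ℝ) ≤ (if p then (1 : ℝ) else 0) := by
      intro p _
      split_ifs <;> norm_num
    have hI1 : ∀ p : Prop, ∀ _ : Decidable p, (if p then (1 : ℝ) else 0) ≤ 1 := by
      intro p _
      split_ifs <;> norm_num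
    have h4 : 0 ≤ (C2 : ℝ) * SL * PL := by positivity
    have hin : ∀ a0 ∈ Finset.Icc 1 (x 0),
        ∑ v ∈ Fintype.piFinset (fun i : Fin r => Finset.Icc 1 (x i.succ)),
          (if ¬ LinearIndependent Qb (fun be : Fin d × (Fin (r + 1) → Fin (D + 1)) =>
            w be.1 * ∏ i, l i ((Fin.cons (α := fun _ => ℕ) a0 v : Fin (r + 1) → ℕ) i) ^
              (be.2 i : ℕ)) then (1 : ℝ) else 0) ≤
          (if BadK (Submodule.span Qb (Set.range w)) D (l 0 a0) then (1 : ℝ) else 0) * PL +
            (C2 : ℝ) * SL * PL := by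
      intro a0 _
      by_cases ha0 : BadK (Submodule.span Qb (Set.range w)) D (l 0 a0)
      · rw [if_pos ha0, one_mul]
        refine le_trans (Finset.sum_le_sum fun v _ => hI1 _ _) ?_
        rw [Finset.sum_const, nsmul_eq_mul, mul_one, Fintype.card_piFinset]
        simp only [Nat.card_Icc, Nat.add_sub_cancel]
        push_cast
        rw [← hPL]
        linarith
      · rw [if_neg ha0, zero_mul, zero_add]
        have hli := sj_indep w hw D (l 0 a0) ha0
        have hli2 := hli.comp (finProdFinEquiv (m := d) (n := D + 1)).symm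
          (finProdFinEquiv (m := d) (n := D + 1)).symm.injective
        have h1 := hC2 (fun i => l i.succ) (fun i => hl i.succ) _ hli2 (fun i => x i.succ)
          (fun i => hx i.succ)
        rw [sj_card] at h1
        refine le_trans (Finset.sum_le_sum fun v _ => ?_) h1
        by_cases hv : LinearIndependent Qb
            (fun be : Fin (d * (D + 1)) × (Fin r → Fin (D + 1)) =>
                  ((fun be : Fin d × Fin (D + 1) => w be.1 * l 0 a0 ^ (be.2 : ℕ)) ∘
                    (finProdFinEquiv (m := d) (n := D + 1)).symm) be.1 *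
                      ∏ i, l i.succ (v i) ^ (be.2 i : ℕ))
        · rw [if_neg]
          · exact hI _ _
          · intro hcon
            refine hcon ?_
            let e : Fin d × (Fin (r + 1) → Fin (D + 1)) →
                Fin (d * (D + 1)) × (Fin r → Fin (D + 1)) :=
              fun be => (finProdFinEquiv (be.1, be.2 0), fun i => be.2 i.succ)
            have he : Function.Injective e := by
              rintro ⟨b, f⟩ ⟨b', f'⟩ h
              simp only [e, Prod.mk.injEq, EmbeddingLike.apply_eq_iff_eq] at h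
              obtain ⟨⟨h1, h2⟩, h3⟩ := h
              refine Prod.ext h1 ?_
              funext i
              refine Fin.cases ?_ (fun j => ?_) i
              · exact h2
              · exact congrFun h3 j
            have h3 := hv.comp e he
            have h4 : (fun be : Fin d × (Fin (r + 1) → Fin (D + 1)) =>
                w be.1 * ∏ i, l i ((Fin.cons (α := fun _ => ℕ) a0 v : Fin (r + 1) → ℕ) i) ^
                    (be.2 i : ℕ)) =
                (fun be : Fin (d * (D + 1)) × (Fin r → Fin (D + 1)) =>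
                ((fun be : Fin d × Fin (D + 1) => w be.1 * l 0 a0 ^ (be.2 : ℕ)) ∘
                  (finProdFinEquiv (m := d) (n := D + 1)).symm) be.1 *
                    ∏ i, l i.succ (v i) ^ (be.2 i : ℕ)) ∘ e := by
              funext be
              simp only [Function.comp_apply, e, Fin.prod_univ_succ, Fin.cons_zero,
                Fin.cons_succ, Equiv.symm_apply_apply]
              ring
            rw [h4]
            exact h3
        · rw [if_pos hv]
          exact hI1 _ _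
    refine le_trans (Finset.sum_le_sum hin) ?_
    rw [Finset.sum_add_distrib, ← Finset.sum_mul, Finset.sum_const, Nat.card_Icc,
      Nat.add_sub_cancel, nsmul_eq_mul]
    have h1 := hC1 (l 0) (hl 0) w (x 0) (hx 0)
    rw [sj_card] at h1
    have h3 := mul_le_mul_of_nonneg_right h1 hPL0
    set A0 : ℝ := (Real.log (Real.log (x 0))) ^ (C1 + C2) / Real.log (x 0) with hA0
    have hA : (Real.log (Real.log (x 0))) ^ C1 / Real.log (x 0) ≤ A0 :=
      qj_rate (hx 0) (Nat.le_add_right _ _)
    have hA00 : 0 ≤ A0 := qj_rate_nonneg _ (hx 0)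
    set S' : ℝ := ∑ i : Fin r, (Real.log (Real.log (x i.succ))) ^ (C1 + C2) /
      Real.log (x i.succ) with hS'
    have hS : SL ≤ S' :=
      Finset.sum_le_sum fun i _ => qj_rate (hx i.succ) (Nat.le_add_left _ _)
    have hS'0 : 0 ≤ S' := le_trans hSL0 hS
    have hx0 : (0 : ℝ) ≤ (x 0 : ℝ) := Nat.cast_nonneg _
    have hc1 : (0 : ℝ) ≤ (C1 : ℝ) := Nat.cast_nonneg _
    have hc2 : (0 : ℝ) ≤ (C2 : ℝ) := Nat.cast_nonneg _
    have hxP : 0 ≤ (x 0 : ℝ) * PL := mul_nonneg hx0 hPL0
    have h5 : (C1 : ℝ) * ((Real.log (Real.log (x 0))) ^ C1 / Real.log (x 0)) * (x 0 : ℝ) * PL ≤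
        ((C1 : ℝ) + C2) * A0 * ((x 0 : ℝ) * PL) := by
      rw [mul_assoc _ (x 0 : ℝ) PL]
      refine mul_le_mul_of_nonneg_right ?_ hxP
      refine mul_le_mul (by linarith) hA (qj_rate_nonneg _ (hx 0)) (by positivity)
    have h6 : (x 0 : ℝ) * ((C2 : ℝ) * SL * PL) ≤ ((C1 : ℝ) + C2) * S' * ((x 0 : ℝ) * PL) := by
      have : (x 0 : ℝ) * ((C2 : ℝ) * SL * PL) = (C2 : ℝ) * SL * ((x 0 : ℝ) * PL) := by ring
      rw [this]
      refine mul_le_mul_of_nonneg_right ?_ hxP
      exact mul_le_mul (by linarith) hS hSL0 (by positivity)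
    push_cast
    calc _ ≤ ((C1 : ℝ) + C2) * A0 * ((x 0 : ℝ) * PL) + ((C1 : ℝ) + C2) * S' * ((x 0 : ℝ) * PL) :=
          add_le_add (le_trans h3 h5) h6
      _ = ((C1 : ℝ) + C2) * (A0 + S') * ((x 0 : ℝ) * PL) := by ring

end Pool.Agent.LogAll
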