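import Pool.Agent.Lib_MP_1eadae_lq.QE
import Pool.Agent.Lib_MP_1eadae_lq.QJ
import Pool.Agent.Lib_MP_1eadae_la.LogP

/-!
# The final theorem with a rate
-/

set_option autoImplicit false

namespace Pool.Agent.LogAll

open Polynomial Pool.Agent.LogRel

open Classical in
theorem tuples_rate (d D r : ℕ) : ∃ C : ℕ, ∀ l : Fin r → ℕ → ℂ, (∀ i, l i ∈ LogFun) →
      ∀ w : Fin d → ℂ, LinearIndependent Qb w → ∀ x : Fin r → ℕ, (∀ i, 16 ≤ x i) →
      ((((Fintype.piFinset fun i => Finset.Icc 1 (x i)).filter (fun a : Fin r → ℕ =>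
        ¬ LinearIndependent Qb (fun be : Fin d × (Fin r → Fin (D + 1)) =>
          w be.1 * ∏ i, l i (a i) ^ (be.2 i : ℕ)))).card : ℕ) : ℝ) ≤
        C * (∑ i, (Real.log (Real.log (x i))) ^ C / Real.log (x i)) * ∏ i, (x i : ℝ) :=
  jointR LogFun one_rate d D r

end Pool.Agent.LogAll
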