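import Pool.Agent.Lib_MP_1eadae_ls.SF

/-!
# Piece QB: no cube of bad integers
-/

set_option autoImplicit false

namespace Pool.Agent.LogAll

open Polynomial Pool.Agent.LogRel

private theorem qb_prod {l : ℕ → ℂ} (hl : ∀ a b : ℕ, 0 < a → 0 < b → l (a * b) = l a + l b)
    {n : ℕ} (r : Fin n → ℕ) (hr : ∀ i, 0 < r i) (m : ℕ) (hm : 0 < m) :
    l (m * ∏ i, r i) = l m + ∑ i, l (r i) := by
  have key : ∀ s : Finset (Fin n), l (m * ∏ i ∈ s, r i) = l m + ∑ i ∈ s, l (r i) := by
    intro s
    classical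
    induction s using Finset.induction_on with
    | empty => simp
    | insert a s ha ih =>
      rw [Finset.prod_insert ha, Finset.sum_insert ha, mul_left_comm,
        hl _ _ (hr a) (Nat.mul_pos hm (Finset.prod_pos fun i _ => hr i)), ih]
      ring
  exact key Finset.univ

private theorem qb_ind {l : ℕ → ℂ} (hl : LinearIndependent ℚ (fun p : Nat.Primes => l (p : ℕ)))
    {n : ℕ} (t : Fin n → ℕ × ℕ) (hp : ∀ i, (t i).1.Prime ∧ (t i).2.Prime)
    (hne : ∀ i, (t i).1 ≠ (t i).2) (hd : ∀ i j, i ≠ j → (t i).1 ≠ (t j).1 ∧ (t i).1 ≠ (t j).2 ∧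
        (t i).2 ≠ (t j).1 ∧ (t i).2 ≠ (t j).2) :
    LinearIndependent ℚ (fun i : Fin n => l (t i).2 - l (t i).1) := by
  have hinj : Function.Injective (Sum.elim (fun i : Fin n => (⟨(t i).1, (hp i).1⟩ : Nat.Primes))
      (fun i : Fin n => (⟨(t i).2, (hp i).2⟩ : Nat.Primes))) := by
    rintro (i | i) (j | j) h
    · by_contra hij
      have hij' : i ≠ j := fun h' => hij (by rw [h'])
      exact (hd i j hij').1 (congrArg Subtype.val h)
    · exfalso
      have h' : (t i).1 = (t j).2 := congrArg Subtype.val h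
      by_cases hij : i = j
      · subst hij
        exact hne i h'
      · exact (hd i j hij).2.1 h'
    · exfalso
      have h' : (t i).2 = (t j).1 := congrArg Subtype.val h
      by_cases hij : i = j
      · subst hij
        exact hne i h'.symm
      · exact (hd i j hij).2.2.1 h'
    · by_contra hij
      have hij' : i ≠ j := fun h' => hij (by rw [h'])
      exact (hd i j hij').2.2.2 (congrArg Subtype.val h)
  have h1 := hl.comp _ hinj
  rw [Fintype.linearIndependent_iff] at h1 ⊢
  intro c hc i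
  have h2 := h1 (Sum.elim (fun i => - c i) c) (by
    rw [Fintype.sum_sum_type]
    simp only [Sum.elim_inl, Sum.elim_inr, Function.comp_apply, neg_smul,
      Finset.sum_neg_distrib]
    rw [← hc]
    simp only [smul_sub, Finset.sum_sub_distrib]
    ring) (Sum.inr i)
  simpa using h2

/-- From `uniS` with ε = 1 / 2, as in the proof of `one_fun` in Lib_MP_1eadae_ls/SF.lean. -/
theorem nocube (d D : ℕ) : ∃ n : ℕ, ∀ l ∈ LogFun, ∀ (w : Fin d → ℂ) (t : Fin n → ℕ × ℕ),
    (∀ i, (t i).1.Prime ∧ (t i).2.Prime) → (∀ i, (t i).1 ≠ (t i).2) →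
    (∀ i j, i ≠ j → (t i).1 ≠ (t j).1 ∧ (t i).1 ≠ (t j).2 ∧
        (t i).2 ≠ (t j).1 ∧ (t i).2 ≠ (t j).2) →
    ∀ m : ℕ, 0 < m → ∃ S : Finset (Fin n), ¬ BadK (Submodule.span Qb (Set.range w)) D
      (l (m * ∏ i, (if i ∈ S then (t i).2 else (t i).1))) := by
  obtain ⟨n, hn⟩ := uniS d D (ε := 1 / 2) (by norm_num)
  replace hn := hn n le_rfl
  refine ⟨n, fun l hl w t hp hne hd m hm => ?_⟩
  obtain ⟨hadd, hind, halg⟩ := hl
  by_contra hbad
  push Not at hbad
  set lam : ℕ → ℂ := fun k => if h : k < n then l (t ⟨k, h⟩).2 - l (t ⟨k, h⟩).1 else 0 with hlam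
  have hlam' : ∀ i : Fin n, lam i = l (t i).2 - l (t i).1 := by
    intro i
    simp only [hlam, i.isLt, dif_pos]
  have h1 := hn lam w (l m + ∑ i, l (t i).1) (by
    have : (fun i : Fin n => lam i) = fun i : Fin n => l (t i).2 - l (t i).1 :=
      funext hlam'
    rw [this]
    exact qb_ind hind t hp hne hd) (by
    intro i hi
    have h2 := hlam' ⟨i, hi⟩
    simp only at h2
    rw [h2, Complex.exp_sub, div_eq_mul_inv]
    exact (halg _ (hp _).2).mul (halg _ (hp _).1).inv)
  have h2 : ((Finset.univ : Finset (Finset (Fin n))).card : ℝ) ≤ 1 / 2 * 2 ^ n := by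
    refine le_trans ?_ h1
    rw [Nat.cast_le]
    refine Finset.card_le_card_of_injOn (fun S : Finset (Fin n) => S.map Fin.valEmbedding) ?_
      (fun S _ T _ h => Finset.map_injective _ h)
    intro S _
    have hS := hbad S
    simp only [Finset.coe_filter, Finset.mem_powerset, Set.mem_ofPred_eq]
    refine ⟨?_, ?_⟩
    · intro k hk
      rw [Finset.mem_map] at hk
      obtain ⟨i, _, rfl⟩ := hk
      exact Finset.mem_range.mpr i.isLt
    · rw [qb_prod hadd (fun i => if i ∈ S then (t i).2 else (t i).1) (by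
        intro i
        split_ifs
        · exact (hp i).2.pos
        · exact (hp i).1.pos) m hm] at hS
      convert hS using 1
      rw [Finset.sum_map]
      simp only [Fin.valEmbedding_apply]
      rw [Finset.sum_congr rfl (fun i _ => hlam' i)]
      have h3 : ∑ i : Fin n, l (if i ∈ S then (t i).2 else (t i).1) =
          ∑ i : Fin n, (l (t i).1 + if i ∈ S then l (t i).2 - l (t i).1 else 0) := by
        refine Finset.sum_congr rfl fun i _ => ?_
        split_ifs <;> ring
      rw [h3, Finset.sum_add_distrib, ← Finset.sum_filter]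
      simp only [Finset.filter_mem_eq_inter, Finset.univ_inter]
      ring
  rw [Finset.card_univ, Fintype.card_finset, Fintype.card_fin] at h2
  push_cast at h2
  have h3 : (0 : ℝ) < 2 ^ n := by positivity
  linarith

end Pool.Agent.LogAll
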