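import Pool.Agent.Lib_MP_1eadae_lq.QA

/-!
# Piece QC: integers with n large prime factors
-/

set_option autoImplicit false

namespace Pool.Agent.LogAll

open Classical in
/-- The coercion to sets of real numbers in the statement. -/
private theorem qc_cast (s : Finset ℕ) (y : ℝ) :
    (s.filter (fun p => y < (p : ℝ))).card = (s.filter (fun p : ℕ => y < (p : ℝ))).card := by
  have h : ((do let a ← s; pure (a : ℝ)) : Finset ℝ) = s.image (fun a : ℕ => (a : ℝ)) := by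
    ext u
    simp
  rw [h, Finset.filter_image, Finset.card_image_of_injective _ Nat.cast_injective]

open Classical in
/-- The tuples in a dyadic box, for a fixed cofactor. -/
private theorem qc_box (n : ℕ) (bad : Set ℕ)
    (hcube : ∀ t : Fin n → ℕ × ℕ, (∀ i, (t i).1.Prime ∧ (t i).2.Prime) →
      (∀ i, (t i).1 ≠ (t i).2) → (∀ i j, i ≠ j → (t i).1 ≠ (t j).1 ∧ (t i).1 ≠ (t j).2 ∧
        (t i).2 ≠ (t j).1 ∧ (t i).2 ≠ (t j).2) → ∀ m : ℕ, 0 < m →
      ∃ S : Finset (Fin n), m * ∏ i, (if i ∈ S then (t i).2 else (t i).1) ∉ bad)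
    (y : ℝ) (hy : 1 ≤ y) (k : Fin n → ℕ) (hk : ∀ i, y < (2 : ℝ) ^ (k i + 1)) (m : ℕ)
    (hm : 0 < m) :
    ((((Fintype.piFinset fun i => Finset.Ico (2 ^ k i) (2 ^ (k i + 1))).filter
      (fun p : Fin n → ℕ => (∀ i, (p i).Prime) ∧ Function.Injective p ∧
        m * ∏ i, p i ∈ bad)).card : ℕ) : ℝ) ≤
      2 * (2 / y) ^ ((1 / 2 : ℝ) ^ n) * ∏ i, (2 : ℝ) ^ k i := by
  have hy0 : 0 < y := by linarith
  have hy2 : 0 < y / 2 := by positivity
  have hcard : ∀ i, (Finset.Ico (2 ^ k i) (2 ^ (k i + 1))).card = 2 ^ k i := by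
    intro i
    rw [Nat.card_Ico, pow_succ]
    omega
  have hN1 : 1 ≤ ⌈y / 2⌉₊ := Nat.one_le_ceil_iff.2 hy2
  have hNV : ∀ i, ⌈y / 2⌉₊ ≤ (Finset.Ico (2 ^ k i) (2 ^ (k i + 1))).card := by
    intro i
    rw [hcard i]
    refine Nat.ceil_le.2 ?_
    have h := hk i
    rw [pow_succ] at h
    push_cast
    linarith
  obtain ⟨E, hE⟩ : ∃ E : Set (Fin n → ℕ), ∀ p, p ∈ E ↔
      ((∀ i, (p i).Prime) ∧ Function.Injective p ∧ m * ∏ i, p i ∈ bad) :=
    ⟨{p | (∀ i, (p i).Prime) ∧ Function.Injective p ∧ m * ∏ i, p i ∈ bad}, fun p => Iff.rfl⟩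
  have h := boxE n (fun i => Finset.Ico (2 ^ k i) (2 ^ (k i + 1))) ⌈y / 2⌉₊ hN1 hNV E (by
      intro u v huv
      by_contra hcon0
      push Not at hcon0
      have hcon := fun S => (hE _).1 (hcon0 S)
      have hu := (hcon ∅).1
      have hv := (hcon Finset.univ).1
      obtain ⟨S, hS⟩ := hcube (fun i => (u i, v i))
        (fun i => ⟨by simpa using hu i, by simpa using hv i⟩) (fun i => (huv i).2.2)
        (by
          intro i j hij
          refine ⟨fun h0 => hij ?_, fun h0 => hij ?_, fun h0 => hij ?_, fun h0 => hij ?_⟩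
          · refine (hcon ∅).2.1 ?_
            simpa using h0
          · refine (hcon {j}).2.1 ?_
            simpa [hij] using h0
          · refine (hcon {i}).2.1 ?_
            simpa [hij.symm] using h0
          · refine (hcon Finset.univ).2.1 ?_
            simpa using h0) m hm
      exact hS (hcon S).2.2)
  have hδ : -((1 / 2 : ℝ) ^ n) ≤ 0 := by
    have : (0 : ℝ) ≤ (1 / 2 : ℝ) ^ n := by positivity
    linarith
  have hpow : ((⌈y / 2⌉₊ : ℕ) : ℝ) ^ (-((1 / 2 : ℝ) ^ n)) ≤ (2 / y) ^ ((1 / 2 : ℝ) ^ n) := by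
    refine (Real.rpow_le_rpow_of_nonpos hy2 (Nat.le_ceil _) hδ).trans (le_of_eq ?_)
    rw [Real.rpow_neg hy2.le, ← Real.inv_rpow hy2.le, inv_div]
  have hprod : ∏ i, (((Finset.Ico (2 ^ k i) (2 ^ (k i + 1))).card : ℕ) : ℝ)
      = ∏ i, (2 : ℝ) ^ k i := by
    refine Finset.prod_congr rfl fun i _ => ?_
    rw [hcard i]
    push_cast
    rfl
  have hpos : (0 : ℝ) ≤ ∏ i, (2 : ℝ) ^ k i := Finset.prod_nonneg fun i _ => by positivity
  rw [hprod] at h
  refine le_trans ?_ (h.trans (mul_le_mul_of_nonneg_right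
    (mul_le_mul_of_nonneg_left hpow (by norm_num)) hpos))
  refine Nat.cast_le.2 (Finset.card_le_card fun p hp => ?_)
  rw [Finset.mem_filter] at hp ⊢
  exact ⟨hp.1, (hE p).2 hp.2⟩

/-- The factorisation of a counted integer. -/
private theorem qc_mem (n : ℕ) (x : ℕ) (y : ℝ) (a : ℕ) (h1 : 1 ≤ a) (hx : a ≤ x)
    (T : Finset ℕ) (hT : ∀ p ∈ T, p ∈ a.primeFactors ∧ y < (p : ℝ)) (hc : n ≤ T.card) :
    ∃ (p : Fin n → ℕ) (m : ℕ), (∀ i, (p i).Prime) ∧ Function.Injective p ∧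
      (∀ i, y < (p i : ℝ)) ∧ (∀ i, p i ≤ x) ∧ a = m * ∏ i, p i ∧ 0 < m := by
  obtain ⟨U, hU, hUc⟩ := Finset.exists_subset_card_eq hc
  have hmem : ∀ i, U.orderEmbOfFin hUc i ∈ U := fun i => Finset.orderEmbOfFin_mem U hUc i
  have hpr : ∀ i, (U.orderEmbOfFin hUc i).Prime := fun i =>
    Nat.prime_of_mem_primeFactors (hT _ (hU (hmem i))).1
  have hdvd : ∀ i, U.orderEmbOfFin hUc i ∣ a := fun i =>
    Nat.dvd_of_mem_primeFactors (hT _ (hU (hmem i))).1
  have hinj : Function.Injective fun i => U.orderEmbOfFin hUc i :=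
    (U.orderEmbOfFin hUc).injective
  have hall : ∏ i, U.orderEmbOfFin hUc i ∣ a := by
    refine Finset.prod_dvd_of_isRelPrime ?_ fun i _ => hdvd i
    intro i _ j _ hij
    change IsRelPrime _ _
    rw [← Nat.coprime_iff_isRelPrime]
    exact (Nat.coprime_primes (hpr i) (hpr j)).2 fun h => hij (hinj h)
  obtain ⟨m, hm⟩ := hall
  refine ⟨fun i => U.orderEmbOfFin hUc i, m, hpr, hinj, fun i => (hT _ (hU (hmem i))).2,
    fun i => (Nat.le_of_dvd h1 (hdvd i)).trans hx, hm.trans (mul_comm _ _), ?_⟩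
  rcases Nat.eq_zero_or_pos m with h0 | h0
  · rw [h0, mul_zero] at hm
    omega
  · exact h0

open Classical in
/-- Proof. For a counted choose n prime factors p_0 < ... < p_(n-1) of a, all > y; m = a / ∏ p_i,
k_i = Nat.log 2 (p_i), so 2 ^ k_i ≤ p_i < 2 ^ (k_i + 1), 2 ^ k_i > y / 2, m ≤ x / ∏ 2 ^ k_i (floor).
a is determined by (k, m, p). For fixed k (at most (Nat.log 2 x + 1) ^ n of them) and m the set E of
the strictly increasing n-tuples p of primes, p_i in [2 ^ k_i, 2 ^ (k_i + 1)), with m ∏ p_i in bad has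
no cube (if all choices from pairs u_i, v_i are increasing tuples, the 2 n primes are different), so
`boxE` with V i = Finset.Ico (2 ^ k_i) (2 ^ (k_i + 1)), N = 2 ^ (min k_i), gives
|E| ≤ 2 (2 / y) ^ ((1/2)^n) ∏ 2 ^ k_i; the number of m > 0 is at most x / ∏ 2 ^ k_i. (n = 0: by hcube
no m > 0 is bad.) -/
theorem rich_count (n : ℕ) (bad : Set ℕ)
    (hcube : ∀ t : Fin n → ℕ × ℕ, (∀ i, (t i).1.Prime ∧ (t i).2.Prime) →
      (∀ i, (t i).1 ≠ (t i).2) → (∀ i j, i ≠ j → (t i).1 ≠ (t j).1 ∧ (t i).1 ≠ (t j).2 ∧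
        (t i).2 ≠ (t j).1 ∧ (t i).2 ≠ (t j).2) → ∀ m : ℕ, 0 < m →
      ∃ S : Finset (Fin n), m * ∏ i, (if i ∈ S then (t i).2 else (t i).1) ∉ bad)
    (x : ℕ) (y : ℝ) (hy : 1 ≤ y) :
    ((((Finset.Icc 1 x).filter (fun a => a ∈ bad ∧
      n ≤ (a.primeFactors.filter (fun p => y < (p : ℝ))).card)).card : ℕ) : ℝ) ≤
      2 * (2 / y) ^ ((1 / 2 : ℝ) ^ n) * ((Nat.log 2 x : ℝ) + 1) ^ n * x := by
  have hy0 : 0 < y := by linarith
  set L : ℕ := Nat.log 2 x with hL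
  set K : Finset (Fin n → ℕ) := (Fintype.piFinset fun _ : Fin n => Finset.range (L + 1)).filter
    (fun k => ∀ i, y < (2 : ℝ) ^ (k i + 1)) with hK
  have hsub : (Finset.Icc 1 x).filter (fun a => a ∈ bad ∧
      n ≤ (a.primeFactors.filter (fun p => y < (p : ℝ))).card) ⊆
      K.biUnion (fun k => (Finset.Icc 1 (x / ∏ i, 2 ^ k i)).biUnion (fun m =>
        ((Fintype.piFinset fun i => Finset.Ico (2 ^ k i) (2 ^ (k i + 1))).filter
          (fun p : Fin n → ℕ => (∀ i, (p i).Prime) ∧ Function.Injective p ∧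
            m * ∏ i, p i ∈ bad)).image (fun p => m * ∏ i, p i))) := by
    intro a ha
    obtain ⟨ha1, ha2, ha3⟩ := Finset.mem_filter.1 ha
    obtain ⟨ha4, ha5⟩ := Finset.mem_Icc.1 ha1
    obtain ⟨p, m, hp, hinj, hpy, hpx, ham, hm⟩ := qc_mem n x y a ha4 ha5
      (a.primeFactors.filter (fun p : ℕ => y < (p : ℝ)))
      (fun p hp => ⟨(Finset.mem_filter.1 hp).1, (Finset.mem_filter.1 hp).2⟩)
      (ha3.trans (qc_cast _ _).le)
    have hlow : ∀ i, 2 ^ Nat.log 2 (p i) ≤ p i := fun i =>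
      Nat.pow_log_le_self 2 (hp i).ne_zero
    have hup : ∀ i, p i < 2 ^ (Nat.log 2 (p i) + 1) := fun i =>
      Nat.lt_pow_succ_log_self (by norm_num) (p i)
    refine Finset.mem_biUnion.2 ⟨fun i => Nat.log 2 (p i), ?_, ?_⟩
    · refine Finset.mem_filter.2 ⟨Fintype.mem_piFinset.2 fun i => ?_, fun i => ?_⟩
      · exact Finset.mem_range.2 (Nat.lt_succ_of_le (Nat.log_mono_right (hpx i)))
      · refine (hpy i).trans ?_
        exact_mod_cast hup i
    · refine Finset.mem_biUnion.2 ⟨m, Finset.mem_Icc.2 ⟨hm, ?_⟩, ?_⟩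
      · rw [Nat.le_div_iff_mul_le (Finset.prod_pos fun i _ => by positivity)]
        refine le_trans ?_ ha5
        rw [ham]
        exact Nat.mul_le_mul_left _ (Finset.prod_le_prod' fun i _ => hlow i)
      · refine Finset.mem_image.2 ⟨p, Finset.mem_filter.2 ⟨Fintype.mem_piFinset.2 fun i => ?_,
          hp, hinj, ?_⟩, ham.symm⟩
        · exact Finset.mem_Ico.2 ⟨hlow i, hup i⟩
        · rw [← ham]
          exact ha2
  have hδ : (0 : ℝ) ≤ (2 / y) ^ ((1 / 2 : ℝ) ^ n) := Real.rpow_nonneg (by positivity) _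
  have hk : ∀ k ∈ K, (∑ m ∈ Finset.Icc 1 (x / ∏ i, 2 ^ k i),
      ((((Fintype.piFinset fun i => Finset.Ico (2 ^ k i) (2 ^ (k i + 1))).filter
          (fun p : Fin n → ℕ => (∀ i, (p i).Prime) ∧ Function.Injective p ∧
            m * ∏ i, p i ∈ bad)).card : ℕ) : ℝ)) ≤
      2 * (2 / y) ^ ((1 / 2 : ℝ) ^ n) * x := by
    intro k hkK
    have hk2 := (Finset.mem_filter.1 hkK).2
    have hP : (0 : ℝ) < ∏ i, (2 : ℝ) ^ k i := Finset.prod_pos fun i _ => by positivity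
    have hfl : ((x / ∏ i, 2 ^ k i : ℕ) : ℝ) ≤ (x : ℝ) / ∏ i, (2 : ℝ) ^ k i := by
      refine Nat.cast_div_le.trans (le_of_eq ?_)
      push_cast
      rfl
    calc (∑ m ∈ Finset.Icc 1 (x / ∏ i, 2 ^ k i),
        ((((Fintype.piFinset fun i => Finset.Ico (2 ^ k i) (2 ^ (k i + 1))).filter
          (fun p : Fin n → ℕ => (∀ i, (p i).Prime) ∧ Function.Injective p ∧
            m * ∏ i, p i ∈ bad)).card : ℕ) : ℝ))
        ≤ ∑ _m ∈ Finset.Icc 1 (x / ∏ i, 2 ^ k i),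
          2 * (2 / y) ^ ((1 / 2 : ℝ) ^ n) * ∏ i, (2 : ℝ) ^ k i :=
        Finset.sum_le_sum fun m hm =>
          qc_box n bad hcube y hy k hk2 m (Finset.mem_Icc.1 hm).1
      _ = ((x / ∏ i, 2 ^ k i : ℕ) : ℝ) *
          (2 * (2 / y) ^ ((1 / 2 : ℝ) ^ n) * ∏ i, (2 : ℝ) ^ k i) := by
        rw [Finset.sum_const, Nat.card_Icc, Nat.add_sub_cancel, nsmul_eq_mul]
      _ ≤ ((x : ℝ) / ∏ i, (2 : ℝ) ^ k i) *
          (2 * (2 / y) ^ ((1 / 2 : ℝ) ^ n) * ∏ i, (2 : ℝ) ^ k i) :=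
        mul_le_mul_of_nonneg_right hfl (by positivity)
      _ = 2 * (2 / y) ^ ((1 / 2 : ℝ) ^ n) * x := by
        field_simp
  have hKc : ((K.card : ℕ) : ℝ) ≤ ((L : ℝ) + 1) ^ n := by
    have h1 : K.card ≤ (L + 1) ^ n := by
      refine (Finset.card_filter_le _ _).trans (le_of_eq ?_)
      rw [Fintype.card_piFinset, Finset.prod_const, Finset.card_range, Finset.card_univ,
        Fintype.card_fin]
    exact_mod_cast h1
  have hcard : (((Finset.Icc 1 x).filter (fun a => a ∈ bad ∧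
      n ≤ (a.primeFactors.filter (fun p => y < (p : ℝ))).card)).card : ℕ) ≤
      ∑ k ∈ K, ∑ m ∈ Finset.Icc 1 (x / ∏ i, 2 ^ k i),
      ((Fintype.piFinset fun i => Finset.Ico (2 ^ k i) (2 ^ (k i + 1))).filter
          (fun p : Fin n → ℕ => (∀ i, (p i).Prime) ∧ Function.Injective p ∧
            m * ∏ i, p i ∈ bad)).card := by
    refine (Finset.card_le_card hsub).trans (Finset.card_biUnion_le.trans ?_)
    refine Finset.sum_le_sum fun k _ => Finset.card_biUnion_le.trans ?_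
    exact Finset.sum_le_sum fun m _ => Finset.card_image_le
  calc ((((Finset.Icc 1 x).filter (fun a => a ∈ bad ∧
      n ≤ (a.primeFactors.filter (fun p => y < (p : ℝ))).card)).card : ℕ) : ℝ)
      ≤ ∑ k ∈ K, ∑ m ∈ Finset.Icc 1 (x / ∏ i, 2 ^ k i),
      ((((Fintype.piFinset fun i => Finset.Ico (2 ^ k i) (2 ^ (k i + 1))).filter
          (fun p : Fin n → ℕ => (∀ i, (p i).Prime) ∧ Function.Injective p ∧
            m * ∏ i, p i ∈ bad)).card : ℕ) : ℝ) := by exact_mod_cast hcard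
    _ ≤ ∑ _k ∈ K, 2 * (2 / y) ^ ((1 / 2 : ℝ) ^ n) * x := Finset.sum_le_sum hk
    _ = ((K.card : ℕ) : ℝ) * (2 * (2 / y) ^ ((1 / 2 : ℝ) ^ n) * x) := by
      rw [Finset.sum_const, nsmul_eq_mul]
    _ ≤ ((L : ℝ) + 1) ^ n * (2 * (2 / y) ^ ((1 / 2 : ℝ) ^ n) * x) :=
      mul_le_mul_of_nonneg_right hKc (by positivity)
    _ = 2 * (2 / y) ^ ((1 / 2 : ℝ) ^ n) * ((L : ℝ) + 1) ^ n * x := by ring

end Pool.Agent.LogAll
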