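import Pool.Agent.Lib_MP_1eadae_lq.QS

/-!
# Piece QP: integers with few large prime factors, main part
-/

set_option autoImplicit false

namespace Pool.Agent.LogAll

private theorem qp_sum_le {α β : Type} [DecidableEq β] (s : Finset β) (t : Finset α) (g : α → β)
    (f : β → ℝ) (hf : ∀ b, 0 ≤ f b) (h : s ⊆ t.image g) : ∑ b ∈ s, f b ≤ ∑ a ∈ t, f (g a) := by
  classical
  have h1 : ∀ b : s, ∃ a ∈ t, g a = b := fun b => Finset.mem_image.1 (h b.2)
  choose c hc hg using h1
  rw [← Finset.sum_attach s]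
  have h2 : ∑ b ∈ s.attach, f b = ∑ b ∈ s.attach, f (g (c b)) :=
    Finset.sum_congr rfl fun b _ => by rw [hg]
  have hinj : Set.InjOn c (s.attach : Set s) := by
    intro a _ b _ hab
    apply Subtype.ext
    rw [← hg a, ← hg b, hab]
  rw [h2, ← Finset.sum_image (f := fun a => f (g a)) hinj]
  apply Finset.sum_le_sum_of_subset_of_nonneg
  · intro a ha
    obtain ⟨b, _, rfl⟩ := Finset.mem_image.1 ha
    exact hc b
  · intro a _ _
    exact hf _

open Classical in
private noncomputable def qpK (n x : ℕ) : Finset ℕ :=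
  (Finset.Icc 1 x).filter (fun c => Squarefree c ∧ c.primeFactors.card < n)

private theorem mem_qpK {n x c : ℕ} :
    c ∈ qpK n x ↔ (1 ≤ c ∧ c ≤ x) ∧ Squarefree c ∧ c.primeFactors.card < n := by
  simp [qpK]

private theorem qp_sumK (n x : ℕ) : ∑ c ∈ qpK n x, (1 : ℝ) / c ≤
    (1 + ∑ p ∈ (Finset.Icc 1 x).filter Nat.Prime, (1 : ℝ) / p) ^ n := by
  classical
  induction n with
  | zero =>
    have h0 : qpK 0 x = ∅ := by
      apply Finset.eq_empty_of_forall_notMem
      intro c hc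
      exact Nat.not_lt_zero _ (mem_qpK.1 hc).2.2
    rw [h0]
    simp
  | succ n ih =>
    obtain ⟨L, hL⟩ : ∃ L, L = ∑ p ∈ (Finset.Icc 1 x).filter Nat.Prime, (1 : ℝ) / p := ⟨_, rfl⟩
    rw [← hL] at ih ⊢
    have hL0 : 0 ≤ L := by
      rw [hL]
      exact Finset.sum_nonneg fun p _ => by positivity
    have hsub : (qpK (n + 1) x).erase 1 ⊆
        (((Finset.Icc 1 x).filter Nat.Prime) ×ˢ (qpK n x)).image (fun q => q.1 * q.2) := by
      intro c hc
      obtain ⟨hc1, hcK⟩ := Finset.mem_erase.1 hc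
      obtain ⟨⟨h1, h2⟩, hsq, hcard⟩ := mem_qpK.1 hcK
      have hp : (c.minFac).Prime := Nat.minFac_prime hc1
      obtain ⟨c', hc'⟩ := Nat.minFac_dvd c
      obtain ⟨p, hpe⟩ : ∃ p, p = c.minFac := ⟨_, rfl⟩
      rw [← hpe] at hp hc'
      have hc'0 : c' ≠ 0 := by
        rintro rfl
        omega
      have hc'c : c' ∣ c := ⟨p, by rw [hc', mul_comm]⟩
      rw [Finset.mem_image]
      refine ⟨(p, c'), ?_, hc'.symm⟩
      rw [Finset.mem_product]
      constructor
      · show p ∈ (Finset.Icc 1 x).filter Nat.Prime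
        rw [Finset.mem_filter, Finset.mem_Icc]
        exact ⟨⟨hp.one_lt.le, (Nat.le_of_dvd h1 ⟨c', hc'⟩).trans h2⟩, hp⟩
      · show c' ∈ qpK n x
        rw [mem_qpK]
        refine ⟨⟨Nat.pos_of_ne_zero hc'0, (Nat.le_of_dvd h1 hc'c).trans h2⟩,
          hsq.squarefree_of_dvd hc'c, ?_⟩
        have hpc' : ¬ p ∣ c' := by
          rintro ⟨e, he⟩
          have h3 : p * p ∣ c := ⟨e, by rw [hc', he, mul_assoc]⟩
          exact hp.not_isUnit (hsq p h3)
        have hss : c'.primeFactors ⊆ c.primeFactors.erase p := by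
          intro q hq
          rw [Finset.mem_erase]
          refine ⟨?_, Nat.primeFactors_mono hc'c (by omega) hq⟩
          rintro rfl
          exact hpc' (Nat.dvd_of_mem_primeFactors hq)
        have hpm : p ∈ c.primeFactors :=
          Nat.mem_primeFactors.2 ⟨hp, ⟨c', hc'⟩, by omega⟩
        have h4 := Finset.card_le_card hss
        rw [Finset.card_erase_of_mem hpm] at h4
        have h5 : 0 < c.primeFactors.card := Finset.card_pos.2 ⟨p, hpm⟩
        omega
    have h1 : ∑ c ∈ (qpK (n + 1) x).erase 1, (1 : ℝ) / c ≤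
        L * ∑ c ∈ qpK n x, (1 : ℝ) / c := by
      refine (qp_sum_le _ _ _ (fun c : ℕ => (1 : ℝ) / c) (fun c => by positivity) hsub).trans ?_
      rw [hL, Finset.sum_mul_sum, Finset.sum_product]
      apply le_of_eq
      refine Finset.sum_congr rfl fun p _ => Finset.sum_congr rfl fun c _ => ?_
      push_cast
      rw [div_mul_div_comm, one_mul]
    have h2 : ∑ c ∈ qpK (n + 1) x, (1 : ℝ) / c ≤
        ∑ c ∈ insert 1 ((qpK (n + 1) x).erase 1), (1 : ℝ) / c := by
      apply Finset.sum_le_sum_of_subset_of_nonneg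
      · intro c hc
        by_cases h : c = 1
        · rw [h]; exact Finset.mem_insert_self _ _
        · exact Finset.mem_insert_of_mem (Finset.mem_erase.2 ⟨h, hc⟩)
      · intro c _ _
        positivity
    rw [Finset.sum_insert (by simp)] at h2
    have h3 : L * ∑ c ∈ qpK n x, (1 : ℝ) / c ≤ L * (1 + L) ^ n :=
      mul_le_mul_of_nonneg_left ih hL0
    have h4 : (1 : ℝ) ≤ (1 + L) ^ n := one_le_pow₀ (by linarith)
    have h5 : (1 + L) ^ (n + 1) = (1 + L) ^ n + L * (1 + L) ^ n := by ring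
    rw [h5]
    have h6 : (1 : ℝ) / ((1 : ℕ) : ℝ) = 1 := by simp
    rw [h6] at h2
    linarith

private theorem qp_primes {n x D : ℕ} (hx : 16 ≤ x) (hD : 1 ≤ D) :
    ((((Finset.Icc 1 (x / D)).filter (fun P => P.Prime ∧ x ≤ P ^ (6 * n))).card : ℕ) : ℝ) ≤
      30 * n * x / Real.log x * (1 / (D : ℝ)) := by
  classical
  have hDR : (0 : ℝ) < D := by exact_mod_cast hD
  have hxR : (16 : ℝ) ≤ x := by exact_mod_cast hx
  have hlx : 0 < Real.log x := Real.log_pos (by linarith)
  have hrhs : 0 ≤ 30 * n * x / Real.log x * (1 / (D : ℝ)) := by positivity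
  rcases Finset.eq_empty_or_nonempty
    ((Finset.Icc 1 (x / D)).filter (fun P => P.Prime ∧ x ≤ P ^ (6 * n))) with h | h
  · rw [h]
    simpa using hrhs
  · obtain ⟨P, hP⟩ := h
    rw [Finset.mem_filter, Finset.mem_Icc] at hP
    obtain ⟨⟨_, hPt⟩, hPp, hPx⟩ := hP
    obtain ⟨t, ht⟩ : ∃ t : ℝ, t = (x : ℝ) / D := ⟨_, rfl⟩
    have hPt' : (P : ℝ) ≤ t := by
      rw [ht, le_div_iff₀ hDR]
      exact_mod_cast (Nat.le_div_iff_mul_le hD).1 hPt
    have hP2 : (2 : ℝ) ≤ P := by exact_mod_cast hPp.two_le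
    have ht1 : 1 < t := by linarith
    have ht0 : 0 < t := by linarith
    have hlt : 0 < Real.log t := Real.log_pos ht1
    have hfl : ⌊t⌋₊ = x / D := by
      rw [ht]
      exact Nat.floor_div_eq_div _ _
    have hcard : ((Finset.Icc 1 (x / D)).filter (fun P => P.Prime ∧ x ≤ P ^ (6 * n))).card ≤
        Nat.primeCounting ⌊t⌋₊ := by
      rw [hfl, Nat.primeCounting, Nat.primeCounting', Nat.count_eq_card_filter_range]
      apply Finset.card_le_card
      intro p hp
      rw [Finset.mem_filter, Finset.mem_Icc] at hp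
      rw [Finset.mem_filter, Finset.mem_range]
      exact ⟨by omega, hp.2.1⟩
    have h1 := Chebyshev.pi_le_log4_mul_div ht1
    have hsq0 : 0 ≤ Real.sqrt t := Real.sqrt_nonneg t
    have hsqp : 0 < Real.sqrt t := Real.sqrt_pos.2 ht0
    have hls : Real.log (Real.sqrt t) = Real.log t / 2 := Real.log_sqrt ht0.le
    have h2 : Real.log t ≤ 2 * Real.sqrt t := by
      have h3 := Real.log_le_sub_one_of_pos hsqp
      rw [hls] at h3
      linarith
    have h4 : Real.sqrt t ≤ 2 * t / Real.log t := by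
      rw [le_div_iff₀ hlt]
      have h5 : Real.sqrt t * Real.sqrt t = t := Real.mul_self_sqrt ht0.le
      nlinarith
    have hlog4 : Real.log 4 ≤ 1.4 := by
      have h6 : Real.log 4 = 2 * Real.log 2 := by
        rw [show (4 : ℝ) = 2 ^ 2 by norm_num, Real.log_pow]
        push_cast
        ring
      have h7 := Real.log_two_lt_d9
      rw [h6]
      linarith
    have h8 : Real.log 4 * t / Real.log (Real.sqrt t) ≤ 3 * t / Real.log t := by
      rw [hls]
      have h9 : Real.log 4 * t / (Real.log t / 2) = (2 * Real.log 4) * t / Real.log t := by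
        field_simp
      rw [h9]
      apply div_le_div_of_nonneg_right _ hlt.le
      nlinarith
    have h10 : ((Nat.primeCounting ⌊t⌋₊ : ℕ) : ℝ) ≤ 5 * t / Real.log t := by
      have h11 : 5 * t / Real.log t = 3 * t / Real.log t + 2 * t / Real.log t := by
        rw [← add_div]
        ring_nf
      rw [h11]
      linarith
    have h12 : Real.log x ≤ 6 * n * Real.log t := by
      have h13 : (x : ℝ) ≤ (P : ℝ) ^ (6 * n) := by exact_mod_cast hPx
      have h14 : Real.log x ≤ Real.log ((P : ℝ) ^ (6 * n)) :=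
        Real.log_le_log (by linarith) h13
      rw [Real.log_pow] at h14
      push_cast at h14
      have h15 : Real.log P ≤ Real.log t := Real.log_le_log (by linarith) hPt'
      have h16 : (6 * (n : ℝ)) * Real.log P ≤ 6 * n * Real.log t :=
        mul_le_mul_of_nonneg_left h15 (by positivity)
      linarith
    have h17 : 5 * t / Real.log t ≤ 30 * n * t / Real.log x := by
      rw [div_le_div_iff₀ hlt hlx]
      have h18 : 5 * t * Real.log x ≤ 5 * t * (6 * n * Real.log t) :=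
        mul_le_mul_of_nonneg_left h12 (by positivity)
      calc 5 * t * Real.log x ≤ 5 * t * (6 * n * Real.log t) := h18
        _ = 30 * n * t * Real.log t := by ring
    have h19 : 30 * n * t / Real.log x = 30 * n * x / Real.log x * (1 / (D : ℝ)) := by
      rw [ht]
      field_simp
    rw [← h19]
    have h20 : ((((Finset.Icc 1 (x / D)).filter
        (fun P => P.Prime ∧ x ≤ P ^ (6 * n))).card : ℕ) : ℝ) ≤
        ((Nat.primeCounting ⌊t⌋₊ : ℕ) : ℝ) := by exact_mod_cast hcard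
    linarith

private theorem qp_split {n x a m b : ℕ} (hx : 16 ≤ x) (hax : x ≤ a ^ 2)
    (hab : a = m * b) (hm : m ^ 3 ≤ x) (hb : Squarefree b) (hcard : b.primeFactors.card < n) :
    ∃ c P : ℕ, P.Prime ∧ b = c * P ∧ 1 ≤ c ∧ Squarefree c ∧ c.primeFactors.card < n ∧
      x ≤ P ^ (6 * n) := by
  classical
  have hb0 : b ≠ 0 := hb.ne_zero
  have hxb : x ≤ b ^ 6 := by
    have h1 : x ^ 3 ≤ x ^ 2 * b ^ 6 := by
      calc x ^ 3 ≤ (a ^ 2) ^ 3 := Nat.pow_le_pow_left hax 3
        _ = (m ^ 3) ^ 2 * b ^ 6 := by rw [hab]; ring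
        _ ≤ x ^ 2 * b ^ 6 := Nat.mul_le_mul_right _ (Nat.pow_le_pow_left hm 2)
    have h2 : x ^ 2 * x ≤ x ^ 2 * b ^ 6 := by
      calc x ^ 2 * x = x ^ 3 := by ring
        _ ≤ _ := h1
    exact Nat.le_of_mul_le_mul_left h2 (by positivity)
  have hb1 : b ≠ 1 := by
    rintro rfl
    simp at hxb
    omega
  have hne : b.primeFactors.Nonempty := Nat.nonempty_primeFactors.2 (by omega)
  obtain ⟨P, hPm, hPmax⟩ := Finset.exists_max_image b.primeFactors id hne
  simp only [id] at hPmax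
  have hPp : P.Prime := Nat.prime_of_mem_primeFactors hPm
  have hPb : P ∣ b := Nat.dvd_of_mem_primeFactors hPm
  obtain ⟨c, hc⟩ := hPb
  have hcb : c ∣ b := ⟨P, by rw [hc, mul_comm]⟩
  refine ⟨c, P, hPp, by rw [hc, mul_comm], ?_, hb.squarefree_of_dvd hcb, ?_, ?_⟩
  · apply Nat.pos_of_ne_zero
    rintro rfl
    exact hb0 (by rw [hc, mul_zero])
  · exact lt_of_le_of_lt (Finset.card_le_card (Nat.primeFactors_mono hcb hb0)) hcard
  · have h1 : b ≤ P ^ n := by
      calc b = ∏ p ∈ b.primeFactors, p := (Nat.prod_primeFactors_of_squarefree hb).symm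
        _ ≤ P ^ b.primeFactors.card := Finset.prod_le_pow_card _ _ _ hPmax
        _ ≤ P ^ n := Nat.pow_le_pow_right hPp.pos hcard.le
    calc x ≤ b ^ 6 := hxb
      _ ≤ (P ^ n) ^ 6 := Nat.pow_le_pow_left h1 6
      _ = P ^ (6 * n) := by rw [← pow_mul, mul_comm]

private theorem qp_loglog {x : ℕ} (hx : 16 ≤ x) : 1 ≤ Real.log (Real.log x) := by
  have hxR : (16 : ℝ) ≤ x := by exact_mod_cast hx
  have h1 : Real.log 16 ≤ Real.log x := Real.log_le_log (by norm_num) hxR
  have h2 : Real.log 16 = 4 * Real.log 2 := by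
    rw [show (16 : ℝ) = 2 ^ 4 by norm_num, Real.log_pow]
    push_cast
    ring
  have h3 := Real.log_two_gt_d9
  have h4 := Real.exp_one_lt_d9
  rw [Real.le_log_iff_exp_le (by linarith)]
  linarith

private theorem qp_smooth (A : ℕ) : ∃ C : ℝ, 0 < C ∧ ∀ x : ℕ, 16 ≤ x → ∀ s : Finset ℕ,
    (∀ m ∈ s, 0 < m ∧ ∀ p : ℕ, p.Prime → p ∣ m → (p : ℝ) ≤ (Real.log x) ^ A) →
    ∑ m ∈ s, (1 : ℝ) / m ≤ C * Real.log (Real.log x) := by
  obtain ⟨C, hC, h⟩ := smooth_sum
  refine ⟨C * (A + 1), by positivity, fun x hx s hs => ?_⟩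
  have hLL := qp_loglog hx
  have hxR : (16 : ℝ) ≤ x := by exact_mod_cast hx
  have hlx : 0 < Real.log x := Real.log_pos (by linarith)
  have h1 := h (max 2 ((Real.log x) ^ A)) (le_max_left _ _) s
    (fun m hm => ⟨(hs m hm).1, fun p hp hpm => ((hs m hm).2 p hp hpm).trans (le_max_right _ _)⟩)
  have h2 : Real.log (max 2 ((Real.log x) ^ A)) ≤ (A + 1) * Real.log (Real.log x) := by
    have hA0 : (0 : ℝ) ≤ A := by positivity
    rcases max_choice (2 : ℝ) ((Real.log x) ^ A) with h3 | h3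
    · rw [h3]
      have h4 := Real.log_two_lt_d9
      nlinarith
    · rw [h3, Real.log_pow]
      nlinarith
  calc ∑ m ∈ s, (1 : ℝ) / m ≤ C * Real.log (max 2 ((Real.log x) ^ A)) := h1
    _ ≤ C * ((A + 1) * Real.log (Real.log x)) := mul_le_mul_of_nonneg_left h2 hC.le
    _ = C * (A + 1) * Real.log (Real.log x) := by ring

open Classical in
/-- Proof. (a = m b): b ^ 6 ≥ x, so b > 1; P = largest prime factor of b, P ^ n ≥ b (b squarefree with
fewer than n primes), so P ^ (6 n) ≥ x. c = b / P. For fixed (m, c) the number of the primes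
P ≤ x / (m c) with P ^ (6 n) ≥ x is at most C (x / (m c)) 6 n / log x (Chebyshev,
`Chebyshev.pi_le_log4_mul_div`, for t = x / (m c) ≥ P, log t ≥ log x / (6 n)). Sum over m (`smooth_sum`
with y = max 2 ((log x) ^ A)): at most C (A log log x + 1); the sum of 1 / c over the squarefree
c ≤ x with fewer than n prime factors is at most ∑_(j < n) (∑_(p ≤ x) 1/p) ^ j ≤
n (1 + C log log x) ^ n (`sum_inv_primes_le`). Note log log x ≥ 1 for x ≥ 16, so every power of
(1 + log log x) is at most C (log log x) ^ C. -/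
theorem poor_core (n A : ℕ) : ∃ C : ℕ, ∀ x : ℕ, 16 ≤ x →
    ((((Finset.Icc 1 x).filter (fun a => x ≤ a ^ 2 ∧ ∃ m b : ℕ, a = m * b ∧ m ^ 3 ≤ x ∧
      (∀ p : ℕ, p.Prime → p ∣ m → (p : ℝ) ≤ (Real.log x) ^ A) ∧ Squarefree b ∧
        b.primeFactors.card < n)).card : ℕ) : ℝ) ≤
      C * ((Real.log (Real.log x)) ^ C / Real.log x) * x := by
  obtain ⟨C1, hC1, hsm⟩ := qp_smooth A
  obtain ⟨C2, hC2, hpr⟩ := sum_inv_primes_le
  obtain ⟨C, hC⟩ := exists_nat_ge (max (30 * n * C1 * (1 + C2) ^ n) (n + 1))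
  refine ⟨C, fun x hx => ?_⟩
  have hLL := qp_loglog hx
  have hxR : (16 : ℝ) ≤ x := by exact_mod_cast hx
  have hlx : 0 < Real.log x := Real.log_pos (by linarith)
  obtain ⟨M, hM⟩ : ∃ M : Finset ℕ, M = (Finset.Icc 1 x).filter (fun m =>
      ∀ p : ℕ, p.Prime → p ∣ m → (p : ℝ) ≤ (Real.log x) ^ A) := ⟨_, rfl⟩
  have hsub : ((Finset.Icc 1 x).filter (fun a => x ≤ a ^ 2 ∧ ∃ m b : ℕ, a = m * b ∧ m ^ 3 ≤ x ∧
      (∀ p : ℕ, p.Prime → p ∣ m → (p : ℝ) ≤ (Real.log x) ^ A) ∧ Squarefree b ∧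
        b.primeFactors.card < n)) ⊆
      (M ×ˢ qpK n x).biUnion (fun q =>
        ((Finset.Icc 1 (x / (q.1 * q.2))).filter
          (fun P => P.Prime ∧ x ≤ P ^ (6 * n))).image (fun P => q.1 * q.2 * P)) := by
    intro a ha
    rw [Finset.mem_filter, Finset.mem_Icc] at ha
    obtain ⟨⟨ha1, hax⟩, ha2, m, b, hab, hm3, hms, hb, hbc⟩ := ha
    obtain ⟨c, P, hP, hbcP, hc1, hcs, hcc, hxP⟩ := qp_split hx ha2 hab hm3 hb hbc
    have hm0 : 0 < m := by
      apply Nat.pos_of_ne_zero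
      rintro rfl
      omega
    have haP : a = m * c * P := by rw [hab, hbcP, mul_assoc]
    have hmx : m ≤ x := by
      refine le_trans (Nat.le_of_dvd (by omega) ?_) hax
      exact ⟨b, hab⟩
    have hcx : c ≤ x := by
      refine le_trans (Nat.le_of_dvd (by omega) ?_) hax
      exact ⟨m * P, by rw [haP]; ring⟩
    rw [Finset.mem_biUnion]
    refine ⟨(m, c), ?_, ?_⟩
    · rw [Finset.mem_product]
      refine ⟨?_, ?_⟩
      · show m ∈ M
        rw [hM, Finset.mem_filter, Finset.mem_Icc]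
        exact ⟨⟨hm0, hmx⟩, hms⟩
      · show c ∈ qpK n x
        rw [mem_qpK]
        exact ⟨⟨hc1, hcx⟩, hcs, hcc⟩
    · rw [Finset.mem_image]
      refine ⟨P, ?_, haP.symm⟩
      rw [Finset.mem_filter, Finset.mem_Icc]
      refine ⟨⟨hP.one_lt.le, ?_⟩, hP, hxP⟩
      rw [Nat.le_div_iff_mul_le (Nat.mul_pos hm0 hc1)]
      calc P * (m * c) = a := by rw [haP]; ring
        _ ≤ x := hax
  have hcard : ((((Finset.Icc 1 x).filter (fun a => x ≤ a ^ 2 ∧ ∃ m b : ℕ, a = m * b ∧
      m ^ 3 ≤ x ∧ (∀ p : ℕ, p.Prime → p ∣ m → (p : ℝ) ≤ (Real.log x) ^ A) ∧ Squarefree b ∧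
        b.primeFactors.card < n)).card : ℕ) : ℝ) ≤
      ∑ q ∈ M ×ˢ qpK n x, 30 * n * x / Real.log x * (1 / ((q.1 * q.2 : ℕ) : ℝ)) := by
    have h1 := (Finset.card_le_card hsub).trans Finset.card_biUnion_le
    refine (Nat.cast_le.2 h1).trans ?_
    push_cast
    refine Finset.sum_le_sum fun q hq => ?_
    rw [Finset.mem_product] at hq
    have hq1 : 1 ≤ q.1 := by
      have := hq.1
      rw [hM, Finset.mem_filter, Finset.mem_Icc] at this
      exact this.1.1
    have hq2 : 1 ≤ q.2 := (mem_qpK.1 hq.2).1.1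
    have h2 := qp_primes (n := n) hx (Nat.mul_pos hq1 hq2)
    have h3 : ((((Finset.Icc 1 (x / (q.1 * q.2))).filter
          (fun P => P.Prime ∧ x ≤ P ^ (6 * n))).image (fun P => q.1 * q.2 * P)).card : ℝ) ≤
        (((Finset.Icc 1 (x / (q.1 * q.2))).filter
          (fun P => P.Prime ∧ x ≤ P ^ (6 * n))).card : ℝ) := by
      exact_mod_cast Finset.card_image_le
    have h4 := h3.trans h2
    push_cast at h4
    exact h4
  refine hcard.trans ?_
  have hsum : ∑ q ∈ M ×ˢ qpK n x, 30 * n * x / Real.log x * (1 / ((q.1 * q.2 : ℕ) : ℝ)) =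
      30 * n * x / Real.log x * ((∑ m ∈ M, (1 : ℝ) / m) * ∑ c ∈ qpK n x, (1 : ℝ) / c) := by
    rw [← Finset.mul_sum, Finset.sum_mul_sum, Finset.sum_product]
    congr 1
    refine Finset.sum_congr rfl fun m _ => Finset.sum_congr rfl fun c _ => ?_
    push_cast
    rw [div_mul_div_comm, one_mul]
  rw [hsum]
  have hs1 : ∑ m ∈ M, (1 : ℝ) / m ≤ C1 * Real.log (Real.log x) := by
    apply hsm x hx
    intro m hm
    rw [hM, Finset.mem_filter, Finset.mem_Icc] at hm
    exact ⟨hm.1.1, hm.2⟩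
  have hs2 : ∑ c ∈ qpK n x, (1 : ℝ) / c ≤ ((1 + C2) * Real.log (Real.log x)) ^ n := by
    refine (qp_sumK n x).trans (pow_le_pow_left₀ ?_ ?_ n)
    · have : 0 ≤ ∑ p ∈ (Finset.Icc 1 x).filter Nat.Prime, (1 : ℝ) / p :=
        Finset.sum_nonneg fun p _ => by positivity
      linarith
    · have h1 := hpr x hx
      nlinarith
  have hs20 : 0 ≤ ∑ c ∈ qpK n x, (1 : ℝ) / c := Finset.sum_nonneg fun p _ => by positivity
  have hs3 : (∑ m ∈ M, (1 : ℝ) / m) * ∑ c ∈ qpK n x, (1 : ℝ) / c ≤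
      (C1 * Real.log (Real.log x)) * ((1 + C2) * Real.log (Real.log x)) ^ n :=
    mul_le_mul hs1 hs2 hs20 (by positivity)
  have hC3 : 30 * n * C1 * (1 + C2) ^ n ≤ (C : ℝ) := (le_max_left _ _).trans hC
  have hC4 : n + 1 ≤ C := by
    have : ((n : ℝ) + 1) ≤ C := (le_max_right _ _).trans hC
    exact_mod_cast this
  have hLLp : (Real.log (Real.log x)) ^ (n + 1) ≤ (Real.log (Real.log x)) ^ C :=
    pow_le_pow_right₀ hLL hC4
  have hLL0 : 0 ≤ (Real.log (Real.log x)) ^ (n + 1) := by positivity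
  calc 30 * n * x / Real.log x * ((∑ m ∈ M, (1 : ℝ) / m) * ∑ c ∈ qpK n x, (1 : ℝ) / c)
      ≤ 30 * n * x / Real.log x *
        ((C1 * Real.log (Real.log x)) * ((1 + C2) * Real.log (Real.log x)) ^ n) :=
        mul_le_mul_of_nonneg_left hs3 (by positivity)
    _ = (30 * n * C1 * (1 + C2) ^ n) * (Real.log (Real.log x)) ^ (n + 1) * (x / Real.log x) := by
        rw [mul_pow]
        ring
    _ ≤ C * (Real.log (Real.log x)) ^ C * (x / Real.log x) := by
        apply mul_le_mul_of_nonneg_right _ (by positivity)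
        exact mul_le_mul hC3 hLLp hLL0 (by positivity)
    _ = C * ((Real.log (Real.log x)) ^ C / Real.log x) * x := by ring

end Pool.Agent.LogAll
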