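import Pool.Agent.Lib_MP_1eadae_lq.QR
import Pool.Agent.Lib_MP_1eadae_lq.QP

/-!
# Piece QG: integers with few large prime factors
-/

set_option autoImplicit false

namespace Pool.Agent.LogAll

private theorem qg_dvd_prod {a p : ℕ} (hp : p.Prime) (s : Finset ℕ) (hs : s ⊆ a.primeFactors)
    (h : p ∣ ∏ q ∈ s, q ^ a.factorization q) : p ∈ s := by
  rw [hp.prime.dvd_finsetProd_iff] at h
  obtain ⟨q, hq, hpq⟩ := h
  have h1 : p ∣ q := hp.dvd_of_dvd_pow hpq
  have h2 : q.Prime := Nat.prime_of_mem_primeFactors (hs hq)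
  rw [(Nat.prime_dvd_prime_iff_eq hp h2).1 h1]
  exact hq

private theorem qg_card_dvd (x p : ℕ) :
    ((((Finset.Ioc 0 x).filter (fun a => p ∣ a)).card : ℕ) : ℝ) ≤ x / p := by
  rw [Nat.Ioc_filter_dvd_card_eq_div]
  exact Nat.cast_div_le

open Classical in
private theorem qg_card (s : Finset ℕ) (y : ℝ) :
    (Finset.filter (fun p : ℝ => y < p) (do let a ← s; pure (a : ℝ))).card =
      (s.filter (fun p : ℕ => y < (p : ℝ))).card := by
  have h1 : (do let a ← s; pure (a : ℝ) : Finset ℝ) = s.image (fun a : ℕ => (a : ℝ)) := by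
    ext r
    simp only [Finset.bind_def, Finset.pure_def, Finset.mem_sup, Finset.mem_singleton,
      Finset.mem_image]
    constructor
    · rintro ⟨a, ha, h⟩
      exact ⟨a, ha, h.symm⟩
    · rintro ⟨a, ha, h⟩
      exact ⟨a, ha, h.symm⟩
  rw [h1, Finset.filter_image, Finset.card_image_of_injective _ Nat.cast_injective]

open Classical in
/-- Proof. y = (log x) ^ A ≥ log x. Four sets: (1) a ^ 2 < x: at most sqrt x; (2) a divisible by p ^ 2
for a prime p > y: at most the sum over p > y of x / p ^ 2, at most 2 x / y ≤ 2 x / log x (or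
sum over all integers p > y); (3) the y-smooth part m of a (the product of the p ^ (v_p a), p ≤ y) has
m ^ 3 > x: at most the sum of x / m over such m ≤ x, `rankin`; (4) the others: a = m b, m the smooth
part, b squarefree with fewer than n prime factors: `poor_core`. -/
theorem poor_count (n A : ℕ) (hA : 1 ≤ A) : ∃ C : ℕ, ∀ x : ℕ, 16 ≤ x →
    ((((Finset.Icc 1 x).filter (fun a =>
      (a.primeFactors.filter (fun p => (Real.log x) ^ A < (p : ℝ))).card < n)).card : ℕ) : ℝ) ≤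
      C * ((Real.log (Real.log x)) ^ C / Real.log x) * x := by
  simp only [qg_card]
  obtain ⟨C3, hC3, h3⟩ := rankin A
  obtain ⟨C4, h4⟩ := poor_core n A
  refine ⟨⌈C3⌉₊ + 4 + C4, fun x hx => ?_⟩
  have hxr : (16 : ℝ) ≤ x := by exact_mod_cast hx
  have hx0 : (0 : ℝ) < x := by linarith
  have hL : Real.exp 1 < Real.log x := by
    have e1 : Real.log 16 ≤ Real.log x := Real.log_le_log (by norm_num) hxr
    have e2 : Real.log 16 = 4 * Real.log 2 := by
      rw [show (16 : ℝ) = 2 ^ 4 by norm_num, Real.log_pow]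
      norm_num
    have e3 := Real.log_two_gt_d9
    have e4 := Real.exp_one_lt_d9
    linarith
  set L : ℝ := Real.log x with hLd
  have hL0 : 0 < L := lt_trans (Real.exp_pos 1) hL
  have hL1 : 1 ≤ L := by
    have := Real.add_one_le_exp (1 : ℝ)
    linarith
  set LL : ℝ := Real.log L with hLLd
  have hLL : 1 ≤ LL := by
    rw [hLLd, Real.le_log_iff_exp_le hL0]
    exact hL.le
  set y : ℝ := L ^ A with hy
  have hyL : L ≤ y := by
    rw [hy]
    exact le_self_pow₀ hL1 (by omega)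
  have hy0 : 0 < y := by linarith
  -- the four sets
  set S1 : Finset ℕ := Finset.Icc 1 (Nat.sqrt x) with hS1
  set S2 : Finset ℕ := (Finset.Ioo ⌊y⌋₊ (x + 1)).biUnion
    (fun p => (Finset.Ioc 0 x).filter (fun a => p ^ 2 ∣ a)) with hS2
  set s : Finset ℕ := (Finset.Icc 1 x).filter
    (fun m => x < m ^ 3 ∧ ∀ p : ℕ, p.Prime → p ∣ m → (p : ℝ) ≤ y) with hs
  set S3 : Finset ℕ := s.biUnion (fun m => (Finset.Ioc 0 x).filter (fun a => m ∣ a)) with hS3
  set S4 : Finset ℕ := (Finset.Icc 1 x).filter (fun a => x ≤ a ^ 2 ∧ ∃ m b : ℕ, a = m * b ∧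
    m ^ 3 ≤ x ∧ (∀ p : ℕ, p.Prime → p ∣ m → (p : ℝ) ≤ y) ∧ Squarefree b ∧
      b.primeFactors.card < n) with hS4
  set S : Finset ℕ := (Finset.Icc 1 x).filter (fun a =>
    (a.primeFactors.filter (fun p : ℕ => y < (p : ℝ))).card < n) with hS
  have hsub : S ⊆ S1 ∪ (S2 ∪ (S3 ∪ S4)) := by
    intro a ha
    rw [hS, Finset.mem_filter, Finset.mem_Icc] at ha
    obtain ⟨⟨ha1, hax⟩, hcard⟩ := ha
    rw [Finset.mem_union, Finset.mem_union, Finset.mem_union]
    by_cases hc1 : a ^ 2 < x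
    · left
      rw [hS1, Finset.mem_Icc]
      refine ⟨ha1, ?_⟩
      rw [Nat.le_sqrt']
      exact hc1.le
    right
    by_cases hc2 : ∃ p : ℕ, p.Prime ∧ y < (p : ℝ) ∧ p ^ 2 ∣ a
    · left
      obtain ⟨p, hp, hyp, hpa⟩ := hc2
      rw [hS2, Finset.mem_biUnion]
      refine ⟨p, ?_, ?_⟩
      · rw [Finset.mem_Ioo]
        refine ⟨(Nat.floor_lt hy0.le).2 hyp, ?_⟩
        have e1 : p ∣ a := dvd_trans (dvd_pow_self p two_ne_zero) hpa
        have e2 := Nat.le_of_dvd ha1 e1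
        omega
      · rw [Finset.mem_filter, Finset.mem_Ioc]
        exact ⟨⟨ha1, hax⟩, hpa⟩
    right
    set m : ℕ := ∏ q ∈ a.primeFactors.filter (fun p : ℕ => (p : ℝ) ≤ y), q ^ a.factorization q
      with hm
    set b : ℕ := ∏ q ∈ a.primeFactors.filter (fun p : ℕ => y < (p : ℝ)), q ^ a.factorization q
      with hb
    have hmb : a = m * b := by
      have e1 : ∏ q ∈ a.primeFactors, q ^ a.factorization q = a := by
        have := Nat.prod_factorization_pow_eq_self (show a ≠ 0 by omega)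
        rw [Finsupp.prod, Nat.support_factorization] at this
        exact this
      rw [hm, hb]
      conv_lhs => rw [← e1]
      rw [← Finset.prod_filter_mul_prod_filter_not a.primeFactors (fun p : ℕ => (p : ℝ) ≤ y)]
      simp only [not_le]
    have hmp : ∀ p : ℕ, p.Prime → p ∣ m → (p : ℝ) ≤ y := by
      intro p hp hpm
      have := qg_dvd_prod hp _ (Finset.filter_subset _ _) hpm
      exact (Finset.mem_filter.1 this).2
    have hbp : ∀ p : ℕ, p.Prime → p ∣ b →
        p ∈ a.primeFactors.filter (fun p : ℕ => y < (p : ℝ)) := by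
      intro p hp hpb
      exact qg_dvd_prod hp _ (Finset.filter_subset _ _) hpb
    have hma : m ∣ a := ⟨b, hmb⟩
    have hba : b ∣ a := ⟨m, by rw [hmb, mul_comm]⟩
    by_cases hc3 : x < m ^ 3
    · left
      rw [hS3, Finset.mem_biUnion]
      refine ⟨m, ?_, ?_⟩
      · rw [hs, Finset.mem_filter, Finset.mem_Icc]
        refine ⟨⟨Nat.pos_of_dvd_of_pos hma ha1, (Nat.le_of_dvd ha1 hma).trans hax⟩, hc3, hmp⟩
      · rw [Finset.mem_filter, Finset.mem_Ioc]
        exact ⟨⟨ha1, hax⟩, hma⟩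
    right
    rw [hS4, Finset.mem_filter, Finset.mem_Icc]
    refine ⟨⟨ha1, hax⟩, not_lt.1 hc1, m, b, hmb, not_lt.1 hc3, hmp, ?_, ?_⟩
    · rw [Nat.squarefree_iff_prime_squarefree]
      intro p hp hpp
      refine hc2 ⟨p, hp, ?_, ?_⟩
      · exact (Finset.mem_filter.1 (hbp p hp (dvd_trans (dvd_mul_right p p) hpp))).2
      · rw [pow_two]
        exact dvd_trans hpp hba
    · refine lt_of_le_of_lt (Finset.card_le_card ?_) hcard
      intro p hp
      exact hbp p (Nat.prime_of_mem_primeFactors hp) (Nat.dvd_of_mem_primeFactors hp)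
  -- the bounds
  have b1 : (S1.card : ℝ) ≤ 2 * (x / L) := by
    rw [hS1, Nat.card_Icc, Nat.add_sub_cancel]
    have e1 : (Nat.sqrt x : ℝ) ≤ Real.sqrt x := Real.nat_sqrt_le_real_sqrt
    have e2 : L ≤ 2 * Real.sqrt x := by
      have e3 : Real.log (Real.sqrt x) = L / 2 := by rw [Real.log_sqrt hx0.le]
      have e4 : Real.log (Real.sqrt x) ≤ Real.sqrt x := by
        have := Real.log_le_sub_one_of_pos (Real.sqrt_pos.2 hx0)
        linarith
      linarith
    have e5 : Real.sqrt x * Real.sqrt x = x := Real.mul_self_sqrt hx0.le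
    refine e1.trans ?_
    rw [← mul_div_assoc, le_div_iff₀ hL0]
    have e6 := mul_le_mul_of_nonneg_left e2 (Real.sqrt_nonneg (x : ℝ))
    nlinarith
  have b2 : (S2.card : ℝ) ≤ 2 * (x / L) := by
    have e1 : (S2.card : ℝ) ≤ ∑ p ∈ Finset.Ioo ⌊y⌋₊ (x + 1),
        ((((Finset.Ioc 0 x).filter (fun a => p ^ 2 ∣ a)).card : ℕ) : ℝ) := by
      have := Finset.card_biUnion_le (s := Finset.Ioo ⌊y⌋₊ (x + 1))
        (t := fun p => (Finset.Ioc 0 x).filter (fun a => p ^ 2 ∣ a))
      exact_mod_cast this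
    have e2 : ∑ p ∈ Finset.Ioo ⌊y⌋₊ (x + 1),
        ((((Finset.Ioc 0 x).filter (fun a => p ^ 2 ∣ a)).card : ℕ) : ℝ) ≤
        ∑ p ∈ Finset.Ioo ⌊y⌋₊ (x + 1), (x : ℝ) * ((p : ℝ) ^ 2)⁻¹ := by
      refine Finset.sum_le_sum fun p _ => ?_
      have := qg_card_dvd x (p ^ 2)
      rw [← div_eq_mul_inv]
      push_cast at this
      exact this
    have e3 : ∑ p ∈ Finset.Ioo ⌊y⌋₊ (x + 1), ((p : ℝ) ^ 2)⁻¹ ≤ 2 / (⌊y⌋₊ + 1) :=
      sum_Ioo_inv_sq_le _ _
    have e4 : 2 / ((⌊y⌋₊ : ℝ) + 1) ≤ 2 / L := by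
      apply div_le_div_of_nonneg_left (by norm_num) hL0
      exact hyL.trans (Nat.lt_floor_add_one y).le
    refine (e1.trans e2).trans ?_
    rw [← Finset.mul_sum]
    refine (mul_le_mul_of_nonneg_left (e3.trans e4) hx0.le).trans (le_of_eq ?_)
    ring
  have b3 : (S3.card : ℝ) ≤ C3 * (x / L) := by
    have e1 : (S3.card : ℝ) ≤ ∑ m ∈ s,
        ((((Finset.Ioc 0 x).filter (fun a => m ∣ a)).card : ℕ) : ℝ) := by
      have := Finset.card_biUnion_le (s := s)
        (t := fun m => (Finset.Ioc 0 x).filter (fun a => m ∣ a))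
      exact_mod_cast this
    have e2 : ∑ m ∈ s, ((((Finset.Ioc 0 x).filter (fun a => m ∣ a)).card : ℕ) : ℝ) ≤
        ∑ m ∈ s, (x : ℝ) * (1 / m) := by
      refine Finset.sum_le_sum fun m _ => ?_
      rw [mul_one_div]
      exact qg_card_dvd x m
    have e3 := h3 x hx s (fun m hm => (Finset.mem_filter.1 hm).2)
    refine (e1.trans e2).trans ?_
    rw [← Finset.mul_sum]
    refine (mul_le_mul_of_nonneg_left e3 hx0.le).trans (le_of_eq ?_)
    ring
  have b4 : (S4.card : ℝ) ≤ C4 * (LL ^ C4 / L) * x := h4 x hx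
  have hcard : (S.card : ℝ) ≤ S1.card + (S2.card + (S3.card + S4.card)) := by
    have e1 := Finset.card_le_card hsub
    have e2 := Finset.card_union_le S1 (S2 ∪ (S3 ∪ S4))
    have e3 := Finset.card_union_le S2 (S3 ∪ S4)
    have e4 := Finset.card_union_le S3 S4
    exact_mod_cast (show S.card ≤ S1.card + (S2.card + (S3.card + S4.card)) by omega)
  set N : ℕ := ⌈C3⌉₊ + 4 + C4 with hN
  have hC3' : C3 ≤ (⌈C3⌉₊ : ℝ) := Nat.le_ceil _
  have hp1 : 1 ≤ LL ^ N := one_le_pow₀ hLL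
  have hp2 : LL ^ C4 ≤ LL ^ N := pow_le_pow_right₀ hLL (by omega)
  have hxL : 0 ≤ (x : ℝ) / L := by positivity
  have f1 : (4 + C3) * (x / L) ≤ (4 + (⌈C3⌉₊ : ℝ)) * (LL ^ N * (x / L)) := by
    apply mul_le_mul (by linarith) _ hxL (by positivity)
    exact le_mul_of_one_le_left hxL hp1
  have f2 : C4 * (LL ^ C4 / L) * x ≤ C4 * (LL ^ N * (x / L)) := by
    have e1 : (C4 : ℝ) * (LL ^ C4 / L) * x = C4 * (LL ^ C4 * (x / L)) := by ring
    rw [e1]
    exact mul_le_mul_of_nonneg_left (mul_le_mul_of_nonneg_right hp2 hxL) (Nat.cast_nonneg _)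
  have f3 : (N : ℝ) * (LL ^ N / L) * x =
      (4 + (⌈C3⌉₊ : ℝ)) * (LL ^ N * (x / L)) + C4 * (LL ^ N * (x / L)) := by
    have : (N : ℝ) = ⌈C3⌉₊ + 4 + C4 := by
      rw [hN]
      push_cast
      ring
    rw [this]
    ring
  rw [f3]
  linarith

end Pool.Agent.LogAll
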