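import Pool.Agent.Lib_MP_1eadae_lq.QB
import Pool.Agent.Lib_MP_1eadae_lq.QC
import Pool.Agent.Lib_MP_1eadae_lq.QG

/-!
# Piece QE: one variable, with a rate
-/

set_option autoImplicit false

namespace Pool.Agent.LogAll

open Polynomial Pool.Agent.LogRel

private theorem log_facts (x : ℕ) (hx : 16 ≤ x) :
    1 ≤ Real.log x ∧ 1 ≤ Real.log (Real.log x) ∧ (Nat.log 2 x : ℝ) + 1 ≤ 3 * Real.log x := by
  have hx' : (16 : ℝ) ≤ x := by exact_mod_cast hx
  have h16 : Real.log 16 = 4 * Real.log 2 := by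
    rw [show (16 : ℝ) = 2 ^ 4 by norm_num, Real.log_pow]
    norm_num
  have hle : Real.log 16 ≤ Real.log x := Real.log_le_log (by norm_num) hx'
  have h2 := Real.log_two_gt_d9
  have h2' := Real.log_two_lt_d9
  have he := Real.exp_one_lt_d9
  have h3 : Real.exp 1 ≤ Real.log x := by linarith
  have h4 : 1 ≤ Real.log (Real.log x) := by
    rw [Real.le_log_iff_exp_le (lt_of_lt_of_le (Real.exp_pos 1) h3)]
    exact h3
  have h5 : 1 ≤ Real.log x := by linarith
  refine ⟨h5, h4, ?_⟩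
  have h6 : (Nat.log 2 x : ℝ) * Real.log 2 ≤ Real.log x := by
    rw [← Real.log_pow]
    apply Real.log_le_log (by positivity)
    exact_mod_cast Nat.pow_log_le_self 2 (by omega)
  have h7 : (0 : ℝ) ≤ (Nat.log 2 x : ℝ) := Nat.cast_nonneg _
  nlinarith

open Classical in
/-- Proof. n from `nocube`; A = (n + 1) * 2 ^ n, y = (log x) ^ A, so y ^ ((1/2)^n) = (log x) ^ (n+1).
The bad a with at least n prime factors > y: `rich_count`, Nat.log 2 x + 1 ≤ 3 log x; the others:
`poor_count`. log log x ≥ 1 for x ≥ 16 (log 16 > 2.7726 > e). -/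
theorem one_rate (d D : ℕ) : ∃ C : ℕ, ∀ l ∈ LogFun, ∀ (w : Fin d → ℂ) (x : ℕ), 16 ≤ x →
    ((((Finset.Icc 1 x).filter (fun a =>
        BadK (Submodule.span Qb (Set.range w)) D (l a))).card : ℕ) : ℝ) ≤
      C * ((Real.log (Real.log x)) ^ C / Real.log x) * x := by
  obtain ⟨n, hn⟩ := nocube d D
  have hA : 1 ≤ (n + 1) * 2 ^ n := Nat.mul_pos (Nat.succ_pos n) (pow_pos (by norm_num) n)
  obtain ⟨C0, hC0⟩ := poor_count n ((n + 1) * 2 ^ n) hA
  refine ⟨C0 + 4 * 3 ^ n, fun l hl w x hx => ?_⟩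
  obtain ⟨hL1, hLL, hlog⟩ := log_facts x hx
  have hpoor := hC0 x hx
  have hrich := rich_count n {a | BadK (Submodule.span Qb (Set.range w)) D (l a)}
    (fun t h1 h2 h3 m hm => hn l hl w t h1 h2 h3 m hm) x ((Real.log x) ^ ((n + 1) * 2 ^ n))
    (one_le_pow₀ hL1)
  have hx0 : (0 : ℝ) ≤ x := Nat.cast_nonneg x
  have hL0 : 0 < Real.log x := lt_of_lt_of_le one_pos hL1
  -- the main term of the rich part
  have h1 : 2 * (2 / (Real.log x) ^ ((n + 1) * 2 ^ n)) ^ ((1 / 2 : ℝ) ^ n) *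
      ((Nat.log 2 x : ℝ) + 1) ^ n * x ≤ ((4 * 3 ^ n : ℕ) : ℝ) * (1 / Real.log x) * x := by
    have h2 : (2 / (Real.log x) ^ ((n + 1) * 2 ^ n)) ^ ((1 / 2 : ℝ) ^ n) ≤
        2 / (Real.log x) ^ (n + 1) := by
      rw [Real.div_rpow (by norm_num) (pow_nonneg hL0.le _)]
      have h3 : ((Real.log x) ^ ((n + 1) * 2 ^ n)) ^ ((1 / 2 : ℝ) ^ n) =
          (Real.log x) ^ (n + 1) := by
        rw [← Real.rpow_natCast, ← Real.rpow_mul hL0.le, ← Real.rpow_natCast (Real.log x) (n + 1)]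
        congr 1
        push_cast
        rw [mul_assoc, ← mul_pow]
        norm_num
      have h4 : (2 : ℝ) ^ ((1 / 2 : ℝ) ^ n) ≤ 2 := by
        calc (2 : ℝ) ^ ((1 / 2 : ℝ) ^ n) ≤ (2 : ℝ) ^ (1 : ℝ) :=
              Real.rpow_le_rpow_of_exponent_le (by norm_num)
                (pow_le_one₀ (by norm_num) (by norm_num))
          _ = 2 := Real.rpow_one 2
      rw [h3]
      exact div_le_div_of_nonneg_right h4 (pow_nonneg hL0.le _)
    have h5 : ((Nat.log 2 x : ℝ) + 1) ^ n ≤ (3 * Real.log x) ^ n :=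
      pow_le_pow_left₀ (by positivity) hlog n
    calc 2 * (2 / (Real.log x) ^ ((n + 1) * 2 ^ n)) ^ ((1 / 2 : ℝ) ^ n) *
          ((Nat.log 2 x : ℝ) + 1) ^ n * x
        ≤ 2 * (2 / (Real.log x) ^ (n + 1)) * (3 * Real.log x) ^ n * x := by
          apply mul_le_mul_of_nonneg_right _ hx0
          apply mul_le_mul (mul_le_mul_of_nonneg_left h2 (by norm_num)) h5 (by positivity)
            (by positivity)
      _ = ((4 * 3 ^ n : ℕ) : ℝ) * (1 / Real.log x) * x := by
          rw [mul_pow, pow_succ]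
          push_cast
          field_simp
          ring
  -- the count
  have h6 : (((Finset.Icc 1 x).filter (fun a =>
        BadK (Submodule.span Qb (Set.range w)) D (l a))).card) ≤
      (((Finset.Icc 1 x).filter (fun a => a ∈ {a | BadK (Submodule.span Qb (Set.range w)) D (l a)} ∧
        n ≤ (a.primeFactors.filter (fun p =>
          (Real.log x) ^ ((n + 1) * 2 ^ n) < (p : ℝ))).card)).card) +
      (((Finset.Icc 1 x).filter (fun a =>
        (a.primeFactors.filter (fun p =>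
          (Real.log x) ^ ((n + 1) * 2 ^ n) < (p : ℝ))).card < n)).card) := by
    refine le_trans (Finset.card_le_card ?_) (Finset.card_union_le _ _)
    intro a ha
    rw [Finset.mem_filter] at ha
    rw [Finset.mem_union, Finset.mem_filter, Finset.mem_filter]
    rcases lt_or_ge (a.primeFactors.filter (fun p =>
      (Real.log x) ^ ((n + 1) * 2 ^ n) < (p : ℝ))).card n with h | h
    · exact Or.inr ⟨ha.1, h⟩
    · exact Or.inl ⟨ha.1, ha.2, h⟩
  have h7 := Nat.cast_le (α := ℝ).mpr h6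
  rw [Nat.cast_add] at h7
  refine le_trans h7 (le_trans (add_le_add (le_trans hrich h1) hpoor) ?_)
  -- the constants
  have h8 : 1 / Real.log x ≤ (Real.log (Real.log x)) ^ (C0 + 4 * 3 ^ n) / Real.log x :=
    div_le_div_of_nonneg_right (one_le_pow₀ hLL) hL0.le
  have h9 : (Real.log (Real.log x)) ^ C0 / Real.log x ≤
      (Real.log (Real.log x)) ^ (C0 + 4 * 3 ^ n) / Real.log x :=
    div_le_div_of_nonneg_right (pow_le_pow_right₀ hLL (Nat.le_add_right _ _)) hL0.le
  calc ((4 * 3 ^ n : ℕ) : ℝ) * (1 / Real.log x) * x +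
        C0 * ((Real.log (Real.log x)) ^ C0 / Real.log x) * x
      ≤ ((4 * 3 ^ n : ℕ) : ℝ) * ((Real.log (Real.log x)) ^ (C0 + 4 * 3 ^ n) / Real.log x) * x +
        C0 * ((Real.log (Real.log x)) ^ (C0 + 4 * 3 ^ n) / Real.log x) * x := by
        apply add_le_add
        · exact mul_le_mul_of_nonneg_right (mul_le_mul_of_nonneg_left h8 (Nat.cast_nonneg _)) hx0
        · exact mul_le_mul_of_nonneg_right (mul_le_mul_of_nonneg_left h9 (Nat.cast_nonneg _)) hx0
    _ = ((C0 + 4 * 3 ^ n : ℕ) : ℝ) *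
        ((Real.log (Real.log x)) ^ (C0 + 4 * 3 ^ n) / Real.log x) * x := by
        rw [Nat.cast_add]
        ring

end Pool.Agent.LogAll
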