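import Pool.Agent.Lib_MP_1eadae_lq.QS

/-!
# Piece QR: smooth numbers are rare (Rankin)
-/

set_option autoImplicit false

namespace Pool.Agent.LogAll

open Finset in
/-- Euler product: the sum of m ^ (σ - 1) over y-smooth numbers, σ = 1 / (4 log y) -/
private theorem smooth_rpow_sum {y : ℝ} (hy : 2 ≤ y) (s : Finset ℕ)
    (hs : ∀ m ∈ s, 0 < m ∧ ∀ p : ℕ, p.Prime → p ∣ m → (p : ℝ) ≤ y) :
    ∑ m ∈ s, (m : ℝ) ^ (1 / (4 * Real.log y) - 1) ≤ Real.exp (3.6 * (1 + Real.log y)) := by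
  have hl2 := Real.log_two_gt_d9
  have hly : Real.log 2 ≤ Real.log y := Real.log_le_log (by norm_num) hy
  have hly0 : 0 < Real.log y := by linarith
  set σ : ℝ := 1 / (4 * Real.log y) with hσ
  have hσ0 : 0 < σ := by positivity
  have hσ1 : σ < 1 / 2 := by
    rw [hσ, div_lt_div_iff₀ (by positivity) (by norm_num)]
    linarith
  have hσl : Real.log y * σ = 1 / 4 := by
    rw [hσ]
    field_simp
  have hY : 2 ≤ ⌊y⌋₊ := Nat.le_floor (by exact_mod_cast hy)
  set Y := ⌊y⌋₊ with hYd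
  have hYy : (Y : ℝ) ≤ y := Nat.floor_le (by linarith)
  let f : ℕ →* ℝ :=
    { toFun := fun m => ((m : ℝ)) ^ (σ - 1)
      map_one' := by
        rw [Nat.cast_one, Real.one_rpow]
      map_mul' := fun a b => by
        rw [Nat.cast_mul, Real.mul_rpow (Nat.cast_nonneg a) (Nat.cast_nonneg b)] }
  have hf0 : ∀ m, 0 ≤ f m := fun m => Real.rpow_nonneg (Nat.cast_nonneg m) _
  have hf : ∀ {p : ℕ}, p.Prime → ‖f p‖ < 1 := by
    intro p hp
    have hp1 : (1 : ℝ) < p := by exact_mod_cast hp.one_lt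
    rw [Real.norm_eq_abs, abs_of_nonneg (hf0 p)]
    exact Real.rpow_lt_one_of_one_lt_of_neg hp1 (by linarith)
  obtain ⟨hsum, hhas⟩ :=
    EulerProduct.summable_and_hasSum_smoothNumbers_prod_primesBelow_geometric hf (Y + 1)
  have hmem : ∀ m ∈ s, m ∈ Nat.smoothNumbers (Y + 1) := by
    intro m hm
    rw [Nat.mem_smoothNumbers]
    refine ⟨(hs m hm).1.ne', fun p hp => ?_⟩
    have h1 := (hs m hm).2 p (Nat.prime_of_mem_primeFactorsList hp)
      (Nat.dvd_of_mem_primeFactorsList hp)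
    have h2 : p ≤ Y := Nat.le_floor h1
    omega
  have h1 : ∑ m ∈ s, (m : ℝ) ^ (σ - 1) ≤ ∏ p ∈ (Y + 1).primesBelow, (1 - f p)⁻¹ := by
    have h2 : ∑ m ∈ s, (m : ℝ) ^ (σ - 1) =
        ∑ m ∈ s.attach.map ⟨fun m => (⟨m.1, hmem m.1 m.2⟩ : Nat.smoothNumbers (Y + 1)),
          fun a b h => by
            have := congrArg Subtype.val h
            exact Subtype.ext this⟩, f m := by
      rw [sum_map, ← sum_attach s]
      exact sum_congr rfl fun m _ => rfl
    rw [h2, ← hhas.tsum_eq]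
    exact Summable.sum_le_tsum _ (fun m _ => hf0 m) hhas.summable
  have hE : Real.exp (1 / 4) < 1.2841 := by
    by_contra h
    push Not at h
    have h2 : (1.2841 : ℝ) ^ 4 ≤ Real.exp (1 / 4) ^ 4 := pow_le_pow_left₀ (by norm_num) h 4
    have h3 : Real.exp (1 / 4) ^ 4 = Real.exp 1 := by
      rw [← Real.exp_nat_mul]
      norm_num
    rw [h3] at h2
    have h4 := Real.exp_one_lt_d9
    norm_num at h2
    linarith
  have h5 : ∀ p ∈ (Y + 1).primesBelow, (1 - f p)⁻¹ ≤ Real.exp (3.6 * (1 / (p : ℝ))) := by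
    intro p hp
    rw [Nat.mem_primesBelow] at hp
    have hpp : p.Prime := hp.2
    have hp2 : (2 : ℝ) ≤ p := by exact_mod_cast hpp.two_le
    have hp0 : (0 : ℝ) < p := by linarith
    have hpY : (p : ℝ) ≤ y := by
      have : (p : ℝ) ≤ Y := by exact_mod_cast Nat.lt_succ_iff.mp hp.1
      linarith
    have h6 : (p : ℝ) ^ σ ≤ 1.2841 := by
      calc (p : ℝ) ^ σ ≤ y ^ σ := Real.rpow_le_rpow hp0.le hpY hσ0.le
        _ = Real.exp (1 / 4) := by
          rw [Real.rpow_def_of_pos (by linarith), hσl]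
        _ ≤ 1.2841 := hE.le
    have h7 : f p = (p : ℝ) ^ σ / p := by
      show (p : ℝ) ^ (σ - 1) = (p : ℝ) ^ σ / p
      rw [Real.rpow_sub hp0, Real.rpow_one]
    have h8 : f p ≤ 1.2841 * (1 / (p : ℝ)) := by
      rw [h7, mul_one_div]
      exact div_le_div_of_nonneg_right h6 hp0.le
    have h9 : 1 / (p : ℝ) ≤ 1 / 2 := one_div_le_one_div_of_le (by norm_num) hp2
    have h10 : f p ≤ 0.64205 := by linarith
    have h11 : 0 < 1 - f p := by linarith
    have h12 : (1 - f p)⁻¹ = f p / (1 - f p) + 1 := by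
      field_simp
      ring
    have h13 : f p / (1 - f p) ≤ 3.6 * (1 / (p : ℝ)) := by
      rw [div_le_iff₀ h11]
      have h14 : 0 < 1 / (p : ℝ) := by positivity
      nlinarith [hf0 p, h8, h10, h14]
    calc (1 - f p)⁻¹ = f p / (1 - f p) + 1 := h12
      _ ≤ Real.exp (f p / (1 - f p)) := Real.add_one_le_exp _
      _ ≤ Real.exp (3.6 * (1 / (p : ℝ))) := Real.exp_le_exp.mpr h13
  have h6 : ∑ p ∈ (Y + 1).primesBelow, (1 : ℝ) / p ≤ 1 + Real.log y := by
    calc ∑ p ∈ (Y + 1).primesBelow, (1 : ℝ) / p ≤ ∑ n ∈ Icc 1 Y, (1 : ℝ) / n := by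
          refine sum_le_sum_of_subset_of_nonneg ?_ fun n _ _ => by positivity
          intro p hp
          rw [Nat.mem_primesBelow] at hp
          rw [mem_Icc]
          exact ⟨hp.2.one_lt.le, by omega⟩
      _ = ((harmonic Y : ℚ) : ℝ) := by
          rw [harmonic_eq_sum_Icc]
          push_cast
          exact sum_congr rfl fun n _ => one_div _
      _ ≤ 1 + Real.log Y := harmonic_le_one_add_log Y
      _ ≤ 1 + Real.log y := by
          have : Real.log Y ≤ Real.log y := Real.log_le_log (by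
            have : (2 : ℝ) ≤ Y := by exact_mod_cast hY
            linarith) hYy
          linarith
  calc ∑ m ∈ s, (m : ℝ) ^ (σ - 1) ≤ ∏ p ∈ (Y + 1).primesBelow, (1 - f p)⁻¹ := h1
    _ ≤ ∏ p ∈ (Y + 1).primesBelow, Real.exp (3.6 * (1 / (p : ℝ))) := by
        refine prod_le_prod (fun p hp => ?_) h5
        rw [Nat.mem_primesBelow] at hp
        have h7 := hf hp.2
        rw [Real.norm_eq_abs, abs_of_nonneg (hf0 p)] at h7
        exact inv_nonneg.2 (by linarith)
    _ = Real.exp (3.6 * ∑ p ∈ (Y + 1).primesBelow, (1 : ℝ) / p) := by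
        rw [← Real.exp_sum, mul_sum]
    _ ≤ Real.exp (3.6 * (1 + Real.log y)) := by
        rw [Real.exp_le_exp]
        exact mul_le_mul_of_nonneg_left h6 (by norm_num)

/-- The numerical inequality. -/
private theorem rankin_num {A : ℝ} (hA : 1 ≤ A) {u : ℝ} (hu : 0 < u) :
    u + (3.6 * (1 + A * u) - Real.exp u / (12 * (A * u))) ≤
      3.6 + (1 + 3.6 * A) * (1 + (1 + 3.6 * A) * (288 * A)) := by
  have hA0 : 0 < A := by linarith
  have h1 : u ^ 4 / 24 ≤ Real.exp u := by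
    have h2 := Real.pow_div_factorial_le_exp u hu.le 4
    have h3 : ((Nat.factorial 4 : ℕ) : ℝ) = 24 := by norm_num [Nat.factorial]
    rwa [h3] at h2
  have h2 : u ^ 3 / (288 * A) ≤ Real.exp u / (12 * (A * u)) := by
    rw [div_le_div_iff₀ (by positivity) (by positivity)]
    have h3 : u ^ 3 * (12 * (A * u)) = (u ^ 4 / 24) * (288 * A) := by ring
    rw [h3]
    exact mul_le_mul_of_nonneg_right h1 (by positivity)
  set b : ℝ := 1 + 3.6 * A with hb
  have hb0 : 0 < b := by positivity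
  set c : ℝ := 288 * A with hc
  have hc0 : 0 < c := by positivity
  have h3 : b * u - u ^ 3 / c ≤ b * (1 + b * c) := by
    by_cases h : u ≤ 1 + b * c
    · have h4 : b * u ≤ b * (1 + b * c) := mul_le_mul_of_nonneg_left h hb0.le
      have h5 : 0 ≤ u ^ 3 / c := by positivity
      linarith
    · push Not at h
      have h4 : b * c ≤ u ^ 2 := by nlinarith [mul_pos hb0 hc0]
      have h5 : b * u ≤ u ^ 3 / c := by
        rw [le_div_iff₀ hc0]
        nlinarith [mul_le_mul_of_nonneg_right h4 hu.le]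
      have h6 : 0 ≤ b * (1 + b * c) := by positivity
      linarith
  have h4 : u + 3.6 * (1 + A * u) = 3.6 + b * u := by
    rw [hb]
    ring
  linarith

/-- Proof. y = (log x) ^ A; if y < 2 then every such m is 1, but 1 ^ 3 ≤ x, so s is empty. Let
y ≥ 2, σ = 1 / (4 log y): 1 / m ≤ (m ^ 3 / x) ^ (σ / 3) / m = x ^ (-σ/3) m ^ (σ - 1), p ^ σ ≤ exp (1/4) <
1.2841 for p ≤ y, so the sum of m ^ (σ - 1) over y-smooth m is the product over p ≤ y of
(1 - p ^ (σ-1))⁻¹ ≤ (1 - 1.2841/p)⁻¹ ≤ exp (3.6 / p) (2/3.. t / (1 - t), t ≤ 0.6421), at most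
exp (3.6 (1 + log y)) (crude: the sum of 1/p is at most 1 + log y). Together
exp (3.6 (1 + log y) - log x / (12 log y)), log y = A log log x: times log x this tends to 0, so it is
≤ C / log x for x large; for the other x use `smooth_sum`. -/
theorem rankin (A : ℕ) : ∃ C : ℝ, 0 < C ∧ ∀ x : ℕ, 16 ≤ x → ∀ s : Finset ℕ,
    (∀ m ∈ s, x < m ^ 3 ∧ ∀ p : ℕ, p.Prime → p ∣ m → (p : ℝ) ≤ (Real.log x) ^ A) →
    ∑ m ∈ s, (1 : ℝ) / m ≤ C / Real.log x := by
  rcases Nat.eq_zero_or_pos A with hA | hA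
  · subst hA
    refine ⟨1, one_pos, fun x hx s hs => ?_⟩
    have hx' : (16 : ℝ) ≤ x := by exact_mod_cast hx
    have hsE : s = ∅ := by
      rw [Finset.eq_empty_iff_forall_notMem]
      intro m hm
      obtain ⟨h1, h2⟩ := hs m hm
      have hm1 : m ≠ 1 := by
        rintro rfl
        omega
      obtain ⟨p, hp, hpm⟩ := Nat.exists_prime_and_dvd hm1
      have h3 := h2 p hp hpm
      rw [pow_zero] at h3
      have h4 : (2 : ℝ) ≤ p := by exact_mod_cast hp.two_le
      linarith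
    rw [hsE, Finset.sum_empty]
    have : 0 < Real.log x := Real.log_pos (by linarith)
    positivity
  · have hA1 : (1 : ℝ) ≤ A := by exact_mod_cast hA
    refine ⟨Real.exp (3.6 + (1 + 3.6 * A) * (1 + (1 + 3.6 * A) * (288 * A))), Real.exp_pos _,
      fun x hx s hs => ?_⟩
    have hx' : (16 : ℝ) ≤ x := by exact_mod_cast hx
    have hl2 := Real.log_two_gt_d9
    have hL2 : 2 ≤ Real.log x := by
      have h1 : Real.log 16 = 4 * Real.log 2 := by
        have h2 : (16 : ℝ) = 2 ^ 4 := by norm_num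
        rw [h2, Real.log_pow]
        norm_num
      have h3 : Real.log 16 ≤ Real.log x := Real.log_le_log (by norm_num) hx'
      linarith
    set L := Real.log x with hLd
    have hL0 : 0 < L := by linarith
    have hu : 0 < Real.log L := Real.log_pos (by linarith)
    have hy : 2 ≤ L ^ A := by
      calc (2 : ℝ) ≤ L := hL2
        _ = L ^ 1 := (pow_one L).symm
        _ ≤ L ^ A := pow_le_pow_right₀ (by linarith) hA
    have hly : Real.log (L ^ A) = A * Real.log L := Real.log_pow L A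
    have hly0 : 0 < Real.log (L ^ A) := by
      rw [hly]
      positivity
    have hmpos : ∀ m ∈ s, 0 < m := by
      intro m hm
      have h1 := (hs m hm).1
      rcases Nat.eq_zero_or_pos m with h0 | h0
      · subst h0
        simp at h1
      · exact h0
    have hE := smooth_rpow_sum hy s (fun m hm => ⟨hmpos m hm, (hs m hm).2⟩)
    set σ : ℝ := 1 / (4 * Real.log (L ^ A)) with hσ
    have hσ0 : 0 < σ := by positivity
    have hx0 : (0 : ℝ) < x := by linarith
    -- Rankin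
    have h1 : ∀ m ∈ s, (1 : ℝ) / m ≤ (x : ℝ) ^ (-(σ / 3)) * (m : ℝ) ^ (σ - 1) := by
      intro m hm
      have hm0 : (0 : ℝ) < m := by exact_mod_cast hmpos m hm
      have hxm : (x : ℝ) ≤ (m : ℝ) ^ 3 := by
        have := (hs m hm).1
        exact_mod_cast this.le
      have h2 : (x : ℝ) ^ (σ / 3) ≤ (m : ℝ) ^ σ := by
        calc (x : ℝ) ^ (σ / 3) ≤ ((m : ℝ) ^ 3) ^ (σ / 3) :=
              Real.rpow_le_rpow hx0.le hxm (by positivity)
          _ = (m : ℝ) ^ σ := by
              rw [← Real.rpow_natCast, ← Real.rpow_mul hm0.le]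
              congr 1
              push_cast
              ring
      have h3 : (m : ℝ) ^ (σ - 1) = (m : ℝ) ^ σ * (1 / m) := by
        rw [Real.rpow_sub hm0, Real.rpow_one]
        ring
      have h4 : (x : ℝ) ^ (-(σ / 3)) * (x : ℝ) ^ (σ / 3) = 1 := by
        rw [← Real.rpow_add hx0, neg_add_cancel, Real.rpow_zero]
      have h5 : 0 < (x : ℝ) ^ (-(σ / 3)) := Real.rpow_pos_of_pos hx0 _
      have h6 : 0 < 1 / (m : ℝ) := by positivity
      calc (1 : ℝ) / m = ((x : ℝ) ^ (-(σ / 3)) * (x : ℝ) ^ (σ / 3)) * (1 / m) := by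
            rw [h4, one_mul]
        _ = (x : ℝ) ^ (-(σ / 3)) * ((x : ℝ) ^ (σ / 3) * (1 / m)) := by ring
        _ ≤ (x : ℝ) ^ (-(σ / 3)) * ((m : ℝ) ^ σ * (1 / m)) :=
            mul_le_mul_of_nonneg_left (mul_le_mul_of_nonneg_right h2 h6.le) h5.le
        _ = (x : ℝ) ^ (-(σ / 3)) * (m : ℝ) ^ (σ - 1) := by rw [h3]
    have h2 : ∑ m ∈ s, (1 : ℝ) / m ≤
        (x : ℝ) ^ (-(σ / 3)) * Real.exp (3.6 * (1 + Real.log (L ^ A))) := by
      calc ∑ m ∈ s, (1 : ℝ) / m ≤ ∑ m ∈ s, (x : ℝ) ^ (-(σ / 3)) * (m : ℝ) ^ (σ - 1) :=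
            Finset.sum_le_sum h1
        _ = (x : ℝ) ^ (-(σ / 3)) * ∑ m ∈ s, (m : ℝ) ^ (σ - 1) := by rw [Finset.mul_sum]
        _ ≤ _ := mul_le_mul_of_nonneg_left hE (Real.rpow_nonneg hx0.le _)
    have h3 : (x : ℝ) ^ (-(σ / 3)) * Real.exp (3.6 * (1 + Real.log (L ^ A))) =
        Real.exp (3.6 * (1 + A * Real.log L) - L / (12 * (A * Real.log L))) := by
      rw [Real.rpow_def_of_pos hx0, ← Real.exp_add, ← hLd, hσ, hly]
      congr 1
      field_simp
      ring
    have h4 := rankin_num hA1 hu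
    rw [Real.exp_log hL0] at h4
    rw [le_div_iff₀ hL0]
    calc (∑ m ∈ s, (1 : ℝ) / m) * L ≤
          Real.exp (3.6 * (1 + A * Real.log L) - L / (12 * (A * Real.log L))) * L := by
          rw [← h3]
          exact mul_le_mul_of_nonneg_right h2 hL0.le
      _ = Real.exp (Real.log L + (3.6 * (1 + A * Real.log L) - L / (12 * (A * Real.log L)))) := by
          rw [Real.exp_add, Real.exp_log hL0, mul_comm]
      _ ≤ Real.exp (3.6 + (1 + 3.6 * A) * (1 + (1 + 3.6 * A) * (288 * A))) :=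
          Real.exp_le_exp.mpr h4

end Pool.Agent.LogAll
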