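import Pool.Agent.Lib_MP_f55cd4.MertC

/-!
# Piece QS: sums over smooth numbers
-/

set_option autoImplicit false

namespace Pool.Agent.LogAll

private theorem qs_one_le {x : ℕ} (hx : 16 ≤ x) : 1 ≤ Real.log (Real.log x) := by
  have h1 : Real.exp 1 ≤ Real.log x := by
    have h2 : Real.log 16 ≤ Real.log x := Real.log_le_log (by norm_num) (by exact_mod_cast hx)
    have h3 : Real.log 16 = 4 * Real.log 2 := by
      rw [show (16 : ℝ) = 2 ^ 4 by norm_num, Real.log_pow]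
      norm_num
    have h4 := Real.log_two_gt_d9
    have h5 := Real.exp_one_lt_d9
    linarith
  rw [Real.le_log_iff_exp_le ((Real.exp_pos 1).trans_le h1)]
  exact h1

/-- Mertens: from `MPf55cd4.ms_sum` -/
theorem sum_inv_primes_le : ∃ C : ℝ, 0 < C ∧ ∀ x : ℕ, 16 ≤ x →
    ∑ p ∈ (Finset.Icc 1 x).filter Nat.Prime, (1 : ℝ) / p ≤ C * Real.log (Real.log x) := by
  obtain ⟨C, hC⟩ := MPf55cd4.ms_sum
  have hC0 : 0 ≤ C := (abs_nonneg _).trans (hC 2 le_rfl)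
  refine ⟨C + 1, by linarith, fun x hx => ?_⟩
  have hx' : (2 : ℝ) ≤ x := by
    have h : (16 : ℝ) ≤ x := by exact_mod_cast hx
    linarith
  have h1 := (abs_le.1 (hC x hx')).2
  rw [Nat.floor_natCast] at h1
  have h2 := qs_one_le hx
  have h3 : C * 1 ≤ C * Real.log (Real.log x) := mul_le_mul_of_nonneg_left h2 hC0
  have h4 : ∑ p ∈ (Finset.Icc 1 x).filter Nat.Prime, (1 : ℝ) / p ≤
      Real.log (Real.log x) + C := by linarith
  linarith

private theorem qs_mertens : ∃ K : ℝ, 1 ≤ K ∧ ∀ y : ℕ, 2 ≤ y →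
    ∏ p ∈ (Finset.Icc 1 y).filter Nat.Prime, ((p : ℝ) / ((p : ℝ) - 1)) ≤ K * Real.log y := by
  obtain ⟨C, hC⟩ := MPf55cd4.ms_sum
  have hC0 : 0 ≤ C := (abs_nonneg _).trans (hC 2 le_rfl)
  refine ⟨Real.exp (C + 1), Real.one_le_exp (by linarith), fun y hy => ?_⟩
  have hy' : (2 : ℝ) ≤ y := by exact_mod_cast hy
  have h1 := (abs_le.1 (hC y hy')).2
  rw [Nat.floor_natCast] at h1
  have hlog : 0 < Real.log y := Real.log_pos (by linarith)
  have h2 : ∀ p ∈ (Finset.Icc 1 y).filter Nat.Prime, (p : ℝ) / ((p : ℝ) - 1) ≤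
      Real.exp (1 / (p : ℝ) + (((p : ℝ) - 1)⁻¹ - (p : ℝ)⁻¹)) := by
    intro p hp
    have hp1 : (1 : ℝ) < p := by exact_mod_cast (Finset.mem_filter.1 hp).2.one_lt
    have h3 : (p : ℝ) / ((p : ℝ) - 1) = ((p : ℝ) - 1)⁻¹ + 1 := by
      have : (p : ℝ) - 1 ≠ 0 := by linarith
      field_simp
      ring
    have h4 : 1 / (p : ℝ) + (((p : ℝ) - 1)⁻¹ - (p : ℝ)⁻¹) = ((p : ℝ) - 1)⁻¹ := by
      rw [one_div]
      ring
    rw [h3, h4]
    exact Real.add_one_le_exp _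
  have h3 : ∑ p ∈ (Finset.Icc 1 y).filter Nat.Prime, (((p : ℝ) - 1)⁻¹ - (p : ℝ)⁻¹) ≤ 1 := by
    have h4 : ∀ N : ℕ, 1 ≤ N →
        ∑ m ∈ Finset.Icc 2 N, (((m : ℝ) - 1)⁻¹ - (m : ℝ)⁻¹) = 1 - (N : ℝ)⁻¹ := by
      intro N hN
      induction N, hN using Nat.le_induction with
      | base => simp
      | succ N hN ih =>
        rw [Finset.sum_Icc_succ_top (by omega), ih]
        push_cast
        ring
    calc ∑ p ∈ (Finset.Icc 1 y).filter Nat.Prime, (((p : ℝ) - 1)⁻¹ - (p : ℝ)⁻¹)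
        ≤ ∑ m ∈ Finset.Icc 2 y, (((m : ℝ) - 1)⁻¹ - (m : ℝ)⁻¹) := by
          refine Finset.sum_le_sum_of_subset_of_nonneg ?_ fun m hm _ => ?_
          · intro p hp
            rw [Finset.mem_filter, Finset.mem_Icc] at hp
            rw [Finset.mem_Icc]
            exact ⟨hp.2.two_le, hp.1.2⟩
          · rw [Finset.mem_Icc] at hm
            have hm' : (2 : ℝ) ≤ m := by exact_mod_cast hm.1
            have : (m : ℝ)⁻¹ ≤ ((m : ℝ) - 1)⁻¹ := inv_anti₀ (by linarith) (by linarith)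
            linarith
      _ = 1 - (y : ℝ)⁻¹ := h4 y (by omega)
      _ ≤ 1 := by
          have : (0 : ℝ) ≤ (y : ℝ)⁻¹ := by positivity
          linarith
  calc ∏ p ∈ (Finset.Icc 1 y).filter Nat.Prime, ((p : ℝ) / ((p : ℝ) - 1))
      ≤ ∏ p ∈ (Finset.Icc 1 y).filter Nat.Prime,
        Real.exp (1 / (p : ℝ) + (((p : ℝ) - 1)⁻¹ - (p : ℝ)⁻¹)) := by
        refine Finset.prod_le_prod (fun p hp => ?_) h2
        have hp1 : (1 : ℝ) < p := by exact_mod_cast (Finset.mem_filter.1 hp).2.one_lt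
        exact div_nonneg (by linarith) (by linarith)
    _ = Real.exp (∑ p ∈ (Finset.Icc 1 y).filter Nat.Prime, 1 / (p : ℝ) +
        ∑ p ∈ (Finset.Icc 1 y).filter Nat.Prime, (((p : ℝ) - 1)⁻¹ - (p : ℝ)⁻¹)) := by
        rw [← Real.exp_sum, Finset.sum_add_distrib]
    _ ≤ Real.exp (Real.log (Real.log y) + (C + 1)) := by
        rw [Real.exp_le_exp]
        linarith
    _ = Real.exp (C + 1) * Real.log y := by
        rw [Real.exp_add, Real.exp_log hlog, mul_comm]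

private theorem qs_euler (N : ℕ) (s : Finset ℕ) (hs : ∀ m ∈ s, m ∈ N.smoothNumbers) :
    ∑ m ∈ s, (1 : ℝ) / m ≤ ∏ p ∈ N.primesBelow, (1 - ((p : ℝ))⁻¹)⁻¹ := by
  classical
  let f : ℕ →* ℝ :=
    { toFun := fun n => ((n : ℝ))⁻¹
      map_one' := by simp
      map_mul' := by
        intro a b
        rw [Nat.cast_mul, mul_inv] }
  have hfv : ∀ n : ℕ, f n = ((n : ℝ))⁻¹ := fun _ => rfl
  have hf : ∀ {p : ℕ}, p.Prime → ‖f p‖ < 1 := by
    intro p hp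
    have hp1 : (1 : ℝ) < p := by exact_mod_cast hp.one_lt
    rw [hfv, norm_inv, Real.norm_of_nonneg (by linarith)]
    exact inv_lt_one_of_one_lt₀ hp1
  have h2 := (EulerProduct.summable_and_hasSum_smoothNumbers_prod_primesBelow_geometric
    (f := f) hf N).2
  have h4 : ∑ m ∈ s, (1 : ℝ) / m =
      ∑ m ∈ s.subtype (fun m => m ∈ N.smoothNumbers), f (m : ℕ) := by
    rw [Finset.sum_subtype_of_mem (fun m => f m) hs]
    exact Finset.sum_congr rfl fun m _ => by rw [hfv, one_div]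
  rw [h4]
  refine sum_le_hasSum _ (fun i _ => ?_) h2
  rw [hfv]
  positivity

/-- the sum of 1 / m over y-smooth m is at most ∏_(p ≤ y) (1 - 1/p)⁻¹ ≤ C log y (Euler product:
`EulerProduct.summable_and_hasSum_smoothNumbers_prod_primesBelow_geometric`; Mertens product: see
`mertens_prod` in Results/MP_f4255d_nt/LogDensity.lean, from `MPf55cd4.ms_sum`) -/
theorem smooth_sum : ∃ C : ℝ, 0 < C ∧ ∀ y : ℝ, 2 ≤ y → ∀ s : Finset ℕ,
    (∀ m ∈ s, 0 < m ∧ ∀ p : ℕ, p.Prime → p ∣ m → (p : ℝ) ≤ y) →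
    ∑ m ∈ s, (1 : ℝ) / m ≤ C * Real.log y := by
  obtain ⟨K, hK1, hK⟩ := qs_mertens
  refine ⟨K, by linarith, fun y hy s hs => ?_⟩
  have hy0 : 0 ≤ y := by linarith
  have h2 : 2 ≤ ⌊y⌋₊ := Nat.le_floor (by exact_mod_cast hy)
  have h3 : ((⌊y⌋₊ : ℕ) : ℝ) ≤ y := Nat.floor_le hy0
  have h4 : ∑ m ∈ s, (1 : ℝ) / m ≤ ∏ p ∈ (⌊y⌋₊ + 1).primesBelow, (1 - ((p : ℝ))⁻¹)⁻¹ := by
    refine qs_euler _ s fun m hm => ?_
    obtain ⟨h5, h6⟩ := hs m hm
    rw [Nat.mem_smoothNumbers']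
    intro p hp hpm
    exact Nat.lt_succ_of_le (Nat.le_floor (h6 p hp hpm))
  have h5 : ∏ p ∈ (⌊y⌋₊ + 1).primesBelow, (1 - ((p : ℝ))⁻¹)⁻¹ =
      ∏ p ∈ (Finset.Icc 1 ⌊y⌋₊).filter Nat.Prime, ((p : ℝ) / ((p : ℝ) - 1)) := by
    refine Finset.prod_congr ?_ fun p hp => ?_
    · ext p
      rw [Nat.mem_primesBelow, Finset.mem_filter, Finset.mem_Icc]
      constructor
      · rintro ⟨h6, h7⟩
        exact ⟨⟨h7.pos, Nat.le_of_lt_succ h6⟩, h7⟩
      · rintro ⟨⟨-, h6⟩, h7⟩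
        exact ⟨Nat.lt_succ_of_le h6, h7⟩
    · have hp1 : (1 : ℝ) < p := by exact_mod_cast (Finset.mem_filter.1 hp).2.one_lt
      have h6 : (p : ℝ) - 1 ≠ 0 := by linarith
      have h7 : (p : ℝ) ≠ 0 := by linarith
      have h8 : 1 - ((p : ℝ))⁻¹ = ((p : ℝ) - 1) / p := by
        field_simp
      rw [h8, inv_div]
  calc ∑ m ∈ s, (1 : ℝ) / m ≤ ∏ p ∈ (⌊y⌋₊ + 1).primesBelow, (1 - ((p : ℝ))⁻¹)⁻¹ := h4
    _ = ∏ p ∈ (Finset.Icc 1 ⌊y⌋₊).filter Nat.Prime, ((p : ℝ) / ((p : ℝ) - 1)) := h5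
    _ ≤ K * Real.log (⌊y⌋₊ : ℕ) := hK _ h2
    _ ≤ K * Real.log y := by
        refine mul_le_mul_of_nonneg_left (Real.log_le_log ?_ h3) (by linarith)
        have : 0 < ⌊y⌋₊ := by omega
        exact_mod_cast this

end Pool.Agent.LogAll
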